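import Mathlib

namespace Pool.Agent.Helper594.LocalBreaker

open Finset

/-! ## The Shearer region -/

section Shearer

variable {V : Type*} [Fintype V] [DecidableEq V] (G : SimpleGraph V)

/-- No two elements of `I` are adjacent in `G`. -/
def Indep (I : Finset V) : Prop := ∀ a ∈ I, ∀ b ∈ I, ¬ G.Adj a b

open Classical in
/-- The independence polynomial of `G` induced on `W` with weights `-f`. -/
noncomputable def Q (f : V → ℝ) (W : Finset V) : ℝ :=
  ∑ I ∈ W.powerset, if Indep G I then ∏ v ∈ I, (- f v) else 0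

open Classical in
/-- The set of neighbours. -/
noncomputable def nb (v : V) : Finset V := univ.filter (fun u => G.Adj v u)

lemma mem_nb (v u : V) : u ∈ nb G v ↔ G.Adj v u := by
  classical
  simp [nb]

lemma Q_empty (f : V → ℝ) : Q G f ∅ = 1 := by
  classical
  simp [Q, Indep]

lemma Q_insert (f : V → ℝ) {v : V} {W : Finset V} (hv : v ∉ W) :
    Q G f (insert v W) = Q G f W - f v * Q G f (W \ nb G v) := by
  classical
  unfold Q
  rw [Finset.sum_powerset_insert hv]
  have h : ∑ t ∈ W.powerset, (if Indep G (insert v t) then ∏ u ∈ insert v t, (- f u) else 0)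
      = - (f v * ∑ t ∈ (W \ nb G v).powerset, if Indep G t then ∏ u ∈ t, (- f u) else 0) := by
    rw [Finset.mul_sum, ← Finset.sum_neg_distrib]
    symm
    have hsub : (W \ nb G v).powerset ⊆ W.powerset :=
      Finset.powerset_mono.2 Finset.sdiff_subset
    rw [← Finset.sum_subset hsub (f := fun t => if Indep G (insert v t) then
      ∏ u ∈ insert v t, (- f u) else 0)]
    · apply Finset.sum_congr rfl
      intro t ht
      have ht' := Finset.mem_powerset.1 ht
      have hvt : v ∉ t := fun h => hv (Finset.mem_sdiff.1 (ht' h)).1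
      have hiff : Indep G (insert v t) ↔ Indep G t := by
        constructor
        · intro h a ha b hb
          exact h a (Finset.mem_insert_of_mem ha) b (Finset.mem_insert_of_mem hb)
        · intro h a ha b hb
          rcases Finset.mem_insert.1 ha with ha | ha
          · rcases Finset.mem_insert.1 hb with hb | hb
            · rw [ha, hb]
              exact G.loopless.irrefl _
            · intro hab
              rw [ha] at hab
              exact (Finset.mem_sdiff.1 (ht' hb)).2 ((mem_nb G _ _).2 hab)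
          · rcases Finset.mem_insert.1 hb with hb | hb
            · intro hab
              rw [hb] at hab
              exact (Finset.mem_sdiff.1 (ht' ha)).2 ((mem_nb G _ _).2 hab.symm)
            · exact h a ha b hb
      by_cases hI : Indep G t
      · rw [if_pos hI, if_pos (hiff.2 hI), Finset.prod_insert hvt]
        ring
      · rw [if_neg hI, if_neg (fun h => hI (hiff.1 h))]
        ring
    · intro t ht hnt
      rw [if_neg]
      intro hI
      apply hnt
      rw [Finset.mem_powerset] at ht ⊢
      intro u hu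
      rw [Finset.mem_sdiff]
      refine ⟨ht hu, fun h => ?_⟩
      exact hI v (Finset.mem_insert_self _ _) u (Finset.mem_insert_of_mem hu) ((mem_nb G _ _).1 h)
  rw [h]
  ring

lemma Q_congr {f g : V → ℝ} {W : Finset V} (h : ∀ v ∈ W, f v = g v) : Q G f W = Q G g W := by
  classical
  unfold Q
  apply Finset.sum_congr rfl
  intro t ht
  rw [Finset.mem_powerset] at ht
  split_ifs
  · apply Finset.prod_congr rfl
    intro v hv
    rw [h v (ht hv)]
  · rfl

/-- The Shearer region of `G`. -/
def R (f : V → ℝ) : Prop := ∀ W : Finset V, 0 < Q G f W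

/-- Erasing form of the recurrence. -/
lemma Q_erase (f : V → ℝ) {v : V} {W : Finset V} (hv : v ∈ W) :
    Q G f W = Q G f (W.erase v) - f v * Q G f (W.erase v \ nb G v) := by
  have h := Q_insert G f (v := v) (W := W.erase v) (Finset.notMem_erase v W)
  rwa [Finset.insert_erase hv] at h

lemma Q_insert_le {f : V → ℝ} (hf : ∀ v, 0 ≤ f v) (hR : R G f) (v : V) (W : Finset V) :
    Q G f (insert v W) ≤ Q G f W := by
  by_cases hv : v ∈ W
  · rw [Finset.insert_eq_of_mem hv]
  · rw [Q_insert G f hv]
    have h3 := mul_nonneg (hf v) (hR (W \ nb G v)).le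
    linarith

lemma Q_anti {f : V → ℝ} (hf : ∀ v, 0 ≤ f v) (hR : R G f) {W U : Finset V} (h : W ⊆ U) :
    Q G f U ≤ Q G f W := by
  have key : ∀ T : Finset V, Q G f (W ∪ T) ≤ Q G f W := by
    intro T
    induction T using Finset.induction_on with
    | empty => simp
    | insert v T hv ih =>
      rw [Finset.union_insert]
      exact (Q_insert_le G hf hR v _).trans ih
  have := key U
  rwa [Finset.union_eq_right.2 h] at this

lemma Q_submod {f : V → ℝ} (hf : ∀ v, 0 ≤ f v) (hR : R G f) (n : ℕ) :
    ∀ A B : Finset V, (A ∪ B).card ≤ n →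
      Q G f (A ∪ B) * Q G f (A ∩ B) ≤ Q G f A * Q G f B := by
  induction n with
  | zero =>
    intro A B h
    have h0 : A ∪ B = ∅ := Finset.card_eq_zero.1 (Nat.le_zero.1 h)
    have hA : A = ∅ := Finset.subset_empty.1 (h0 ▸ Finset.subset_union_left)
    have hB : B = ∅ := Finset.subset_empty.1 (h0 ▸ Finset.subset_union_right)
    subst hA hB
    simp
  | succ n ih =>
    intro A B h
    by_cases hAB : A ⊆ B
    · rw [Finset.union_eq_right.2 hAB, Finset.inter_eq_left.2 hAB, mul_comm]
    · obtain ⟨v, hvA, hvB⟩ := Finset.not_subset.1 hAB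
      set A' := A.erase v with hA'
      have hvA' : v ∉ A' := Finset.notMem_erase v A
      have hvU : v ∉ A' ∪ B := by
        rw [Finset.mem_union]
        tauto
      have hAeq : A = insert v A' := (Finset.insert_erase hvA).symm
      have hU : A ∪ B = insert v (A' ∪ B) := by
        rw [hAeq, Finset.insert_union]
      have hI : A ∩ B = A' ∩ B := by
        rw [hAeq, Finset.insert_inter_of_notMem hvB]
      have hcard : (A' ∪ B).card ≤ n := by
        rw [hU, Finset.card_insert_of_notMem hvU] at h
        omega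
      have h1 := ih A' B hcard
      have hsub : A' ∪ ((A' ∪ B) \ nb G v) ⊆ A' ∪ B :=
        Finset.union_subset Finset.subset_union_left Finset.sdiff_subset
      have h2 := ih A' ((A' ∪ B) \ nb G v) ((Finset.card_le_card hsub).trans hcard)
      have hI2 : A' ∩ ((A' ∪ B) \ nb G v) = A' \ nb G v := by
        ext x
        simp only [Finset.mem_inter, Finset.mem_sdiff, Finset.mem_union]
        tauto
      rw [hI2] at h2
      have h3 := Q_anti G hf hR hsub
      rw [hU, hI, Q_insert G f hvU, hAeq, Q_insert G f hvA']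
      have pU := hR (A' ∪ B)
      have pA' := hR A'
      have pI := hR (A' ∩ B)
      have pB := hR B
      have pAn := hR (A' \ nb G v)
      have pUn := hR ((A' ∪ B) \ nb G v)
      have pA : 0 < Q G f A' - f v * Q G f (A' \ nb G v) := by
        rw [← Q_insert G f hvA']
        exact hR _
      have h4 : Q G f (A' ∪ B) * Q G f (A' \ nb G v)
          ≤ Q G f A' * Q G f ((A' ∪ B) \ nb G v) :=
        (mul_le_mul_of_nonneg_right h3 pAn.le).trans h2
      have h5 : Q G f A' * (Q G f (A' ∪ B) - f v * Q G f ((A' ∪ B) \ nb G v))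
          ≤ Q G f (A' ∪ B) * (Q G f A' - f v * Q G f (A' \ nb G v)) := by
        have := mul_le_mul_of_nonneg_left h4 (hf v)
        nlinarith
      apply le_of_mul_le_mul_left _ pA'
      calc Q G f A' * ((Q G f (A' ∪ B) - f v * Q G f ((A' ∪ B) \ nb G v)) * Q G f (A' ∩ B))
          = (Q G f A' * (Q G f (A' ∪ B) - f v * Q G f ((A' ∪ B) \ nb G v)))
              * Q G f (A' ∩ B) := by ring
        _ ≤ (Q G f (A' ∪ B) * (Q G f A' - f v * Q G f (A' \ nb G v))) * Q G f (A' ∩ B) :=
            mul_le_mul_of_nonneg_right h5 pI.le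
        _ = (Q G f (A' ∪ B) * Q G f (A' ∩ B)) * (Q G f A' - f v * Q G f (A' \ nb G v)) := by
            ring
        _ ≤ (Q G f A' * Q G f B) * (Q G f A' - f v * Q G f (A' \ nb G v)) :=
            mul_le_mul_of_nonneg_right h1 pA.le
        _ = _ := by ring

lemma Q_ratio {f : V → ℝ} (hf : ∀ v, 0 ≤ f v) (hR : R G f) {W U : Finset V} (h : W ⊆ U)
    (X : Finset V) : Q G f (W \ X) * Q G f U ≤ Q G f (U \ X) * Q G f W := by
  have h1 := Q_submod G hf hR _ W (U \ X) le_rfl
  have hI : W ∩ (U \ X) = W \ X := by
    ext x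
    simp only [Finset.mem_inter, Finset.mem_sdiff]
    constructor
    · tauto
    · intro hx
      exact ⟨hx.1, h hx.1, hx.2⟩
  have hsub : W ∪ (U \ X) ⊆ U := Finset.union_subset h Finset.sdiff_subset
  have h2 := Q_anti G hf hR hsub
  rw [hI] at h1
  have h3 := mul_le_mul_of_nonneg_right h2 (hR (W \ X)).le
  linarith [mul_comm (Q G f (W \ X)) (Q G f U), mul_comm (Q G f W) (Q G f (U \ X))]

lemma R_update {f : V → ℝ} (hR : R G f) (v : V) {t : ℝ} (ht : t ≤ f v) :
    R G (Function.update f v t) := by
  intro W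
  by_cases hv : v ∈ W
  · rw [Q_erase G _ hv, Function.update_self]
    have e1 : Q G (Function.update f v t) (W.erase v) = Q G f (W.erase v) := by
      apply Q_congr
      intro u hu
      rw [Function.update_of_ne (Finset.ne_of_mem_erase hu)]
    have e2 : Q G (Function.update f v t) (W.erase v \ nb G v) = Q G f (W.erase v \ nb G v) := by
      apply Q_congr
      intro u hu
      rw [Function.update_of_ne (Finset.ne_of_mem_erase (Finset.mem_sdiff.1 hu).1)]
    rw [e1, e2]
    have h1 := hR W
    rw [Q_erase G _ hv] at h1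
    have h2 := mul_le_mul_of_nonneg_right ht (hR (W.erase v \ nb G v)).le
    linarith
  · have e1 : Q G (Function.update f v t) W = Q G f W := by
      apply Q_congr
      intro u hu
      have hne : u ≠ v := by
        intro h
        rw [h] at hu
        exact hv hu
      rw [Function.update_of_ne hne]
    rw [e1]
    exact hR W

lemma R_mono {f g : V → ℝ} (hR : R G f) (hg : ∀ v, g v ≤ f v) : R G g := by
  have key : ∀ S : Finset V, R G (S.piecewise g f) := by
    intro S
    induction S using Finset.induction_on with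
    | empty => rwa [Finset.piecewise_empty]
    | insert v S hv ih =>
      rw [Finset.piecewise_insert]
      apply R_update G ih
      rw [Finset.piecewise_eq_of_notMem _ _ _ hv]
      exact hg v
  have := key Finset.univ
  rwa [Finset.piecewise_univ] at this

lemma R_init {n : ℕ} (hn : 1 ≤ n) {f : V → ℝ}
    (hf' : ∀ v, f v ≤ 1 / (4 * n)) (hdeg : ∀ v, (nb G v).card ≤ n) : R G f := by
  have hn' : (1:ℝ) ≤ n := by exact_mod_cast hn
  set r : ℝ := 1 - 1 / (2 * n) with hr
  have hr1 : r ≤ 1 := by
    have : 0 ≤ 1 / (2 * (n:ℝ)) := by positivity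
    linarith
  have hr2 : 1 / 2 ≤ r := by
    have : 1 / (2 * (n:ℝ)) ≤ 1 / 2 := by
      rw [div_le_div_iff₀ (by positivity) (by norm_num)]
      linarith
    linarith
  have hr0 : 0 < r := by linarith
  have hrn : 1 / 2 ≤ r ^ n := by
    have h := one_add_mul_le_pow (a := -(1 / (2 * (n:ℝ)))) (by linarith) n
    have e1 : 1 + (n:ℝ) * -(1 / (2 * (n:ℝ))) = 1 / 2 := by
      field_simp
      ring
    have e2 : 1 + -(1 / (2 * (n:ℝ))) = r := by rw [hr]; ring
    rw [e1, e2] at h
    exact h
  have main : ∀ m : ℕ, ∀ W : Finset V, W.card ≤ m →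
      0 < Q G f W ∧ ∀ v ∈ W, r * Q G f (W.erase v) ≤ Q G f W := by
    intro m
    induction m with
    | zero =>
      intro W hW
      have : W = ∅ := Finset.card_eq_zero.1 (Nat.le_zero.1 hW)
      subst this
      rw [Q_empty]
      simp
    | succ m ih =>
      intro W hW
      have hstep : ∀ v ∈ W, 0 < Q G f (W.erase v) ∧ r * Q G f (W.erase v) ≤ Q G f W := by
        intro v hv
        have hc : (W.erase v).card ≤ m := by
          rw [Finset.card_erase_of_mem hv]
          omega
        set W' := W.erase v with hW'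
        have hpos := (ih W' hc).1
        refine ⟨hpos, ?_⟩
        have hsub : ∀ X : Finset V, X ⊆ W' → r ^ X.card * Q G f (W' \ X) ≤ Q G f W' := by
          intro X
          induction X using Finset.induction_on with
          | empty => intro _; simp
          | insert x X hx ihX =>
            intro hXW
            have hX' : X ⊆ W' := (Finset.subset_insert x X).trans hXW
            have hxW : x ∈ W' \ X := Finset.mem_sdiff.2 ⟨hXW (Finset.mem_insert_self _ _), hx⟩
            have hcX : (W' \ X).card ≤ m := (Finset.card_le_card Finset.sdiff_subset).trans hc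
            have h1 := (ih (W' \ X) hcX).2 x hxW
            have e : W' \ insert x X = (W' \ X).erase x := by
              ext y
              simp only [Finset.mem_sdiff, Finset.mem_insert, Finset.mem_erase]
              tauto
            rw [Finset.card_insert_of_notMem hx, e, pow_succ]
            calc r ^ X.card * r * Q G f ((W' \ X).erase x)
                = r ^ X.card * (r * Q G f ((W' \ X).erase x)) := by ring
              _ ≤ r ^ X.card * Q G f (W' \ X) :=
                  mul_le_mul_of_nonneg_left h1 (pow_nonneg hr0.le _)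
              _ ≤ Q G f W' := ihX hX'
        have h2 := hsub (W' ∩ nb G v) Finset.inter_subset_left
        have e2 : W' \ (W' ∩ nb G v) = W' \ nb G v := by
          ext y
          simp only [Finset.mem_sdiff, Finset.mem_inter]
          tauto
        rw [e2] at h2
        have hcard : (W' ∩ nb G v).card ≤ n :=
          (Finset.card_le_card Finset.inter_subset_right).trans (hdeg v)
        have hpow : 1 / 2 ≤ r ^ (W' ∩ nb G v).card :=
          hrn.trans (pow_le_pow_of_le_one hr0.le hr1 hcard)
        have hposn : 0 < Q G f (W' \ nb G v) :=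
          (ih _ ((Finset.card_le_card Finset.sdiff_subset).trans hc)).1
        have h3 : Q G f (W' \ nb G v) ≤ 2 * Q G f W' := by
          have := mul_le_mul_of_nonneg_right hpow hposn.le
          linarith
        have h4 : f v * Q G f (W' \ nb G v) ≤ 1 / (4 * n) * (2 * Q G f W') :=
          mul_le_mul (hf' v) h3 hposn.le (by positivity)
        rw [Q_erase G f hv, ← hW']
        have e3 : 1 / (4 * (n:ℝ)) * (2 * Q G f W') = (1 - r) * Q G f W' := by
          rw [hr]
          field_simp
          ring
        rw [e3] at h4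
        linarith
      refine ⟨?_, fun v hv => (hstep v hv).2⟩
      rcases W.eq_empty_or_nonempty with rfl | ⟨v, hv⟩
      · rw [Q_empty]; exact one_pos
      · have := hstep v hv
        have h5 := mul_pos hr0 this.1
        linarith
  intro W
  exact (main _ W le_rfl).1

lemma Q_clique (f g : V → ℝ) {C : Finset V} (hC : ∀ a ∈ C, ∀ b ∈ C, a ≠ b → G.Adj a b)
    (hfg : ∀ v, v ∉ C → g v = f v) (W : Finset V) :
    Q G g W = Q G f (W \ C) - ∑ c ∈ C ∩ W, g c * Q G f (W \ (C ∪ nb G c)) := by
  have key : ∀ S : Finset V, S ⊆ C → Q G g ((W \ C) ∪ S)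
      = Q G f (W \ C) - ∑ c ∈ S, g c * Q G f (W \ (C ∪ nb G c)) := by
    intro S
    induction S using Finset.induction_on with
    | empty =>
      intro _
      rw [Finset.union_empty, Finset.sum_empty, sub_zero]
      apply Q_congr
      intro v hv
      exact hfg v (Finset.mem_sdiff.1 hv).2
    | insert v S hv ih =>
      intro hS
      have hvC : v ∈ C := hS (Finset.mem_insert_self _ _)
      have hSC : S ⊆ C := (Finset.subset_insert _ _).trans hS
      have hnot : v ∉ (W \ C) ∪ S := by
        rw [Finset.mem_union, Finset.mem_sdiff]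
        tauto
      rw [Finset.union_insert, Q_insert G g hnot, ih hSC, Finset.sum_insert hv]
      have e : ((W \ C) ∪ S) \ nb G v = W \ (C ∪ nb G v) := by
        ext u
        simp only [Finset.mem_sdiff, Finset.mem_union]
        constructor
        · rintro ⟨h1 | h1, h2⟩
          · exact ⟨h1.1, fun h => h.elim h1.2 h2⟩
          · exfalso
            apply h2
            rw [mem_nb]
            apply hC v hvC u (hSC h1)
            rintro rfl
            exact hv h1
        · rintro ⟨h1, h2⟩
          exact ⟨Or.inl ⟨h1, fun h => h2 (Or.inl h)⟩, fun h => h2 (Or.inr h)⟩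
      have e2 : Q G g (W \ (C ∪ nb G v)) = Q G f (W \ (C ∪ nb G v)) := by
        apply Q_congr
        intro u hu
        apply hfg
        intro hu'
        exact (Finset.mem_sdiff.1 hu).2 (Finset.mem_union_left _ hu')
      rw [e, e2]
      ring
  have h := key (C ∩ W) Finset.inter_subset_left
  rw [← h]
  congr 1
  ext u
  simp only [Finset.mem_union, Finset.mem_sdiff, Finset.mem_inter]
  tauto

lemma R_clique {f g : V → ℝ} (hf : ∀ v, 0 ≤ f v) (hg : ∀ v, 0 ≤ g v) (hR : R G f)
    {C : Finset V} (hC : ∀ a ∈ C, ∀ b ∈ C, a ≠ b → G.Adj a b)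
    (hfg : ∀ v, v ∉ C → g v = f v) (hpos : 0 < Q G g Finset.univ) : R G g := by
  set h : V → ℝ := fun v => min (f v) (g v) with hh
  have hh0 : ∀ v, 0 ≤ h v := fun v => le_min (hf v) (hg v)
  have hRh : R G h := R_mono G hR (fun v => min_le_left _ _)
  have hgh : ∀ v, v ∉ C → g v = h v := by
    intro v hv
    rw [hh]
    simp only
    rw [hfg v hv, min_self]
  have hle : ∀ v, h v ≤ g v := fun v => min_le_right _ _
  have dec : ∀ W, Q G g W = Q G h W
      - ∑ c ∈ C ∩ W, (g c - h c) * Q G h (W \ (C ∪ nb G c)) := by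
    intro W
    rw [Q_clique G h g hC hgh W, Q_clique G h h hC (fun _ _ => rfl) W, sub_sub,
      ← Finset.sum_add_distrib]
    congr 1
    apply Finset.sum_congr rfl
    intro c _
    ring
  intro W
  have hU := hRh Finset.univ
  have hW := hRh W
  have hkey : 0 < Q G g W * Q G h Finset.univ := by
    have e1 : Q G h W * Q G g Finset.univ ≤ Q G g W * Q G h Finset.univ := by
      rw [dec W, dec Finset.univ, mul_sub, sub_mul]
      have e2 : (∑ c ∈ C ∩ W, (g c - h c) * Q G h (W \ (C ∪ nb G c))) * Q G h Finset.univ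
          ≤ Q G h W * ∑ c ∈ C ∩ Finset.univ, (g c - h c)
            * Q G h (Finset.univ \ (C ∪ nb G c)) := by
        rw [Finset.sum_mul, Finset.mul_sum]
        calc ∑ c ∈ C ∩ W, (g c - h c) * Q G h (W \ (C ∪ nb G c)) * Q G h Finset.univ
            ≤ ∑ c ∈ C ∩ W, Q G h W * ((g c - h c)
              * Q G h (Finset.univ \ (C ∪ nb G c))) := by
              apply Finset.sum_le_sum
              intro c _
              have r := Q_ratio G hh0 hRh (Finset.subset_univ W) (C ∪ nb G c)
              have := mul_le_mul_of_nonneg_left r (sub_nonneg.2 (hle c))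
              nlinarith
          _ ≤ ∑ c ∈ C ∩ Finset.univ, Q G h W * ((g c - h c)
              * Q G h (Finset.univ \ (C ∪ nb G c))) := by
              apply Finset.sum_le_sum_of_subset_of_nonneg
              · exact Finset.inter_subset_inter_left (Finset.subset_univ W)
              · intro c _ _
                exact mul_nonneg hW.le (mul_nonneg (sub_nonneg.2 (hle c)) (hRh _).le)
      linarith
    exact lt_of_lt_of_le (mul_pos hW hpos) e1
  exact (mul_pos_iff_of_pos_right hU).1 hkey

/-- One round: if a probability distribution on the replies makes the weights of the clique `C`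
supermartingales and the other weights never increase, some reply keeps the region. -/
lemma R_round {Y : Type*} {f : V → ℝ} (hf : ∀ v, 0 ≤ f v) (hR : R G f)
    {C : Finset V} (hC : ∀ a ∈ C, ∀ b ∈ C, a ≠ b → G.Adj a b)
    (S : Finset Y) (P : Y → ℝ) (hP : ∀ y ∈ S, 0 ≤ P y) (hP1 : ∑ y ∈ S, P y = 1)
    (g : Y → V → ℝ) (hg : ∀ y ∈ S, ∀ v, 0 ≤ g y v)
    (hout : ∀ y ∈ S, ∀ v, v ∉ C → g y v ≤ f v)
    (hin : ∀ v ∈ C, ∑ y ∈ S, P y * g y v ≤ f v) :
    ∃ y ∈ S, R G (g y) := by
  classical
  set h : Y → V → ℝ := fun y v => if v ∈ C then g y v else f v with hh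
  have hh0 : ∀ y ∈ S, ∀ v, 0 ≤ h y v := by
    intro y hy v
    rw [hh]
    simp only
    split_ifs
    · exact hg y hy v
    · exact hf v
  have hhf : ∀ y, ∀ v, v ∉ C → h y v = f v := by
    intro y v hv
    rw [hh]
    simp only
    rw [if_neg hv]
  have hQ : ∀ y, Q G (h y) Finset.univ = Q G f (Finset.univ \ C)
      - ∑ c ∈ C, g y c * Q G f (Finset.univ \ (C ∪ nb G c)) := by
    intro y
    rw [Q_clique G f (h y) hC (hhf y) Finset.univ, Finset.inter_univ]
    congr 1
    apply Finset.sum_congr rfl
    intro c hc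
    rw [hh]
    simp only
    rw [if_pos hc]
  have hQf : Q G f Finset.univ = Q G f (Finset.univ \ C)
      - ∑ c ∈ C, f c * Q G f (Finset.univ \ (C ∪ nb G c)) := by
    rw [Q_clique G f f hC (fun _ _ => rfl) Finset.univ, Finset.inter_univ]
  have hsum : Q G f Finset.univ ≤ ∑ y ∈ S, P y * Q G (h y) Finset.univ := by
    have e1 : ∑ y ∈ S, P y * Q G (h y) Finset.univ = Q G f (Finset.univ \ C)
        - ∑ c ∈ C, (∑ y ∈ S, P y * g y c) * Q G f (Finset.univ \ (C ∪ nb G c)) := by
      simp_rw [hQ, mul_sub, Finset.sum_sub_distrib, ← Finset.sum_mul]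
      rw [hP1, one_mul]
      congr 1
      simp_rw [Finset.mul_sum, Finset.sum_mul]
      rw [Finset.sum_comm]
      apply Finset.sum_congr rfl
      intro c _
      apply Finset.sum_congr rfl
      intro y _
      ring
    rw [e1, hQf]
    apply sub_le_sub_left
    apply Finset.sum_le_sum
    intro c hc
    exact mul_le_mul_of_nonneg_right (hin c hc) (hR _).le
  have hex : ∃ y ∈ S, 0 < Q G (h y) Finset.univ := by
    by_contra hno
    push Not at hno
    have : ∑ y ∈ S, P y * Q G (h y) Finset.univ ≤ 0 := by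
      apply Finset.sum_nonpos
      intro y hy
      exact mul_nonpos_of_nonneg_of_nonpos (hP y hy) (hno y hy)
    have := hR Finset.univ
    linarith
  obtain ⟨y, hy, hpos⟩ := hex
  refine ⟨y, hy, ?_⟩
  have h1 := R_clique G hf (hh0 y hy) hR hC (hhf y) hpos
  apply R_mono G h1
  intro v
  rw [hh]
  simp only
  split_ifs with hv
  · exact le_rfl
  · exact hout y hy v hv

lemma R_lt_one {f : V → ℝ} (hR : R G f) (v : V) : f v < 1 := by
  have h := hR {v}
  have e : ({v} : Finset V) = insert v ∅ := rfl
  rw [e, Q_insert G f (Finset.notMem_empty v), Q_empty] at h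
  have e2 : (∅ : Finset V) \ nb G v = ∅ := Finset.empty_sdiff _
  rw [e2, Q_empty] at h
  linarith

end Shearer

/-! ## Random replies -/

section Replies

variable {V : Type*} [DecidableEq V]

/-- The distribution of the reply: first a random alive edge `A` through the point just taken, with
probability proportional to `r A`, then a random free point `y` of `A` with probability
proportional to `ρ y`. -/
lemma exists_dist (HA : Finset (Finset V)) (F : Finset V) (r : Finset V → ℝ) (ρ : V → ℝ)
    (hr : ∀ A ∈ HA, 0 < r A) (hρ0 : ∀ y, 0 ≤ ρ y)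
    (hρ : ∀ A ∈ HA, 0 < ∑ y ∈ F.filter (fun y => y ∈ A), ρ y) (hne : HA.Nonempty)
    {b T : ℝ} (hb : ∑ A ∈ HA, r A ≤ b)
    (hT : ∀ A ∈ HA, ∑ y ∈ F.filter (fun y => y ∈ A), ρ y ≤ T) :
    ∃ P : V → ℝ, (∀ y ∈ F, 0 ≤ P y) ∧ (∑ y ∈ F, P y = 1) ∧
      (∀ v ∈ F, (∑ A ∈ HA.filter (fun A => v ∈ A), r A) * ρ v / (b * T) ≤ P v) ∧
      (∀ A ∈ HA, r A / b ≤ ∑ y ∈ F.filter (fun y => y ∈ A), P y) := by
  set Rx : ℝ := ∑ A ∈ HA, r A with hRx
  have hRx0 : 0 < Rx := Finset.sum_pos hr hne
  have hb0 : 0 < b := lt_of_lt_of_le hRx0 hb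
  obtain ⟨A0, hA0⟩ := hne
  have hT0 : 0 < T := lt_of_lt_of_le (hρ A0 hA0) (hT A0 hA0)
  set TA : Finset V → ℝ := fun A => ∑ y ∈ F.filter (fun y => y ∈ A), ρ y with hTA
  set q : Finset V → V → ℝ := fun A y => r A / Rx * (ρ y / TA A) with hq
  have hq0 : ∀ A ∈ HA, ∀ y, 0 ≤ q A y := by
    intro A hA y
    have h1 := hr A hA
    have h2 := hρ A hA
    have h3 := hρ0 y
    rw [hq]
    simp only
    positivity
  refine ⟨fun y => ∑ A ∈ HA.filter (fun A => y ∈ A), q A y, ?_, ?_, ?_, ?_⟩
  · intro y _
    apply Finset.sum_nonneg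
    intro A hA
    exact hq0 A (Finset.mem_filter.1 hA).1 y
  · have e1 : ∀ y ∈ F, ∑ A ∈ HA.filter (fun A => y ∈ A), q A y
        = ∑ A ∈ HA, if y ∈ A then q A y else 0 := by
      intro y _
      rw [Finset.sum_filter]
    rw [Finset.sum_congr rfl e1, Finset.sum_comm]
    have e2 : ∀ A ∈ HA, ∑ y ∈ F, (if y ∈ A then q A y else 0) = r A / Rx := by
      intro A hA
      rw [← Finset.sum_filter, hq]
      simp only
      rw [← Finset.mul_sum, ← Finset.sum_div]
      have h2 : (∑ y ∈ F.filter (fun y => y ∈ A), ρ y) / TA A = 1 := div_self (hρ A hA).ne'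
      rw [h2, mul_one]
    rw [Finset.sum_congr rfl e2, ← Finset.sum_div]
    exact div_self hRx0.ne'
  · intro v hv
    simp only
    rw [Finset.sum_mul, Finset.sum_div]
    apply Finset.sum_le_sum
    intro A hA
    have hA' := (Finset.mem_filter.1 hA).1
    have h1 := hr A hA'
    have h2 := hρ A hA'
    have h3 := hρ0 v
    have h4 := hT A hA'
    rw [hq]
    simp only
    rw [div_mul_div_comm]
    apply div_le_div_of_nonneg_left (mul_nonneg h1.le h3) (mul_pos hRx0 h2)
    exact mul_le_mul hb h4 h2.le hb0.le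
  · intro A hA
    have h1 := hr A hA
    calc r A / b ≤ r A / Rx := div_le_div_of_nonneg_left h1.le hRx0 hb
      _ = ∑ y ∈ F.filter (fun y => y ∈ A), q A y := by
          rw [hq]
          simp only
          rw [← Finset.mul_sum, ← Finset.sum_div]
          have h2 : (∑ y ∈ F.filter (fun y => y ∈ A), ρ y) / TA A = 1 := div_self (hρ A hA).ne'
          rw [h2, mul_one]
      _ ≤ _ := by
          apply Finset.sum_le_sum
          intro y hy
          have hyA := (Finset.mem_filter.1 hy).2
          apply Finset.single_le_sum (f := fun A => q A y) (fun A' hA' => hq0 A'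
            (Finset.mem_filter.1 hA').1 y) (Finset.mem_filter.2 ⟨hA, hyA⟩)

lemma mix {Y : Type*} [DecidableEq Y] (F S : Finset Y) (hS : S ⊆ F) (P w : Y → ℝ)
    (hP : ∀ y ∈ F, 0 ≤ P y)
    (hP1 : ∑ y ∈ F, P y = 1) {K w0 ε : ℝ} (hw : ∀ y ∈ F, w y ≤ K) (hw0 : 0 ≤ w0) (hK0 : 0 ≤ K)
    (hzero : ∀ y ∈ S, w y = 0) (hK : K ≤ w0 * Real.exp ε) (hε : ε ≤ ∑ y ∈ S, P y) :
    ∑ y ∈ F, P y * w y ≤ w0 := by
  have e1 : ∑ y ∈ F, P y * w y = ∑ y ∈ F \ S, P y * w y := by
    rw [← Finset.sum_sdiff hS]
    have : ∑ y ∈ S, P y * w y = 0 := by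
      apply Finset.sum_eq_zero
      intro y hy
      rw [hzero y hy, mul_zero]
    rw [this, add_zero]
  have e2 : ∑ y ∈ F \ S, P y * w y ≤ (∑ y ∈ F \ S, P y) * K := by
    rw [Finset.sum_mul]
    apply Finset.sum_le_sum
    intro y hy
    have hyF := (Finset.mem_sdiff.1 hy).1
    exact mul_le_mul_of_nonneg_left (hw y hyF) (hP y hyF)
  have e3 : ∑ y ∈ F \ S, P y = 1 - ∑ y ∈ S, P y := by
    rw [← hP1, ← Finset.sum_sdiff hS]
    ring
  set a : ℝ := ∑ y ∈ S, P y with ha
  have ha1 : 0 ≤ 1 - a := by
    rw [← e3]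
    apply Finset.sum_nonneg
    intro y hy
    exact hP y (Finset.mem_sdiff.1 hy).1
  rw [e1]
  refine e2.trans ?_
  rw [e3]
  have h4 : 1 - a ≤ Real.exp (-a) := by
    have := Real.add_one_le_exp (-a)
    linarith
  calc (1 - a) * K ≤ Real.exp (-a) * (w0 * Real.exp ε) :=
        mul_le_mul h4 hK hK0 (Real.exp_nonneg _)
    _ = w0 * Real.exp (ε - a) := by
        rw [Real.exp_sub, Real.exp_neg]
        field_simp
    _ ≤ w0 * 1 := by
        apply mul_le_mul_of_nonneg_left _ hw0
        rw [Real.exp_le_one_iff]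
        linarith
    _ = w0 := mul_one _

end Replies

/-! ## The potentials of the game -/

/-- The parameters of the potentials. -/
structure Par where
  l : ℝ
  f0 : ℝ
  b : ℝ
  β : ℝ
  Us : ℝ
  k : ℕ
  p : ℕ

section Game

variable {V : Type*} [DecidableEq V]

/-- The danger of an edge. -/
noncomputable def rr (q : Par) (M B A : Finset V) : ℝ :=
  if Disjoint A B then (1 + q.l) ^ ((A ∩ M).card) * q.f0 else 0

/-- The danger of a point. -/
noncomputable def RR (H : Finset (Finset V)) (q : Par) (M B : Finset V) (v : V) : ℝ :=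
  ∑ A ∈ H.filter (fun A => v ∈ A), rr q M B A

/-- The total danger of the edges containing both points. -/
noncomputable def ss (H : Finset (Finset V)) (q : Par) (M B : Finset V) (x v : V) : ℝ :=
  ∑ A ∈ H.filter (fun A => x ∈ A ∧ v ∈ A), rr q M B A

/-- The sum of powers of the dangers of the free points of an edge. -/
noncomputable def UU (H : Finset (Finset V)) (q : Par) (j : ℕ) (M B A : Finset V) : ℝ :=
  ∑ u ∈ A \ (M ∪ B), RR H q M B u ^ j

lemma rr_nonneg {q : Par} (hl : 0 ≤ q.l) (hf : 0 ≤ q.f0) (M B A : Finset V) :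
    0 ≤ rr q M B A := by
  unfold rr
  split_ifs
  · positivity
  · exact le_rfl

lemma rr_kill (q : Par) (M B A : Finset V) {y : V} (hy : y ∈ A) :
    rr q M (insert y B) A = 0 := by
  unfold rr
  rw [if_neg]
  rw [Finset.disjoint_insert_right]
  tauto

lemma rr_step_le {q : Par} (hl : 0 ≤ q.l) (hf : 0 ≤ q.f0) {M : Finset V} (B A : Finset V) (x y : V) :
    rr q (insert x M) (insert y B) A ≤ (if x ∈ A then 1 + q.l else 1) * rr q M B A := by
  by_cases hd : Disjoint A (insert y B)
  · have hd' : Disjoint A B := by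
      rw [Finset.disjoint_insert_right] at hd
      exact hd.2
    unfold rr
    rw [if_pos hd, if_pos hd']
    have h1 : (1:ℝ) ≤ 1 + q.l := by linarith
    by_cases hx : x ∈ A
    · rw [if_pos hx]
      have hc : (A ∩ insert x M).card ≤ (A ∩ M).card + 1 := by
        rw [Finset.inter_insert_of_mem hx]
        exact Finset.card_insert_le _ _
      calc (1 + q.l) ^ (A ∩ insert x M).card * q.f0
          ≤ (1 + q.l) ^ ((A ∩ M).card + 1) * q.f0 :=
            mul_le_mul_of_nonneg_right (pow_le_pow_right₀ h1 hc) hf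
        _ = _ := by ring
    · rw [if_neg hx, Finset.inter_insert_of_notMem hx, one_mul]
  · have e : rr q (insert x M) (insert y B) A = 0 := by
      unfold rr
      rw [if_neg hd]
    rw [e]
    apply mul_nonneg _ (rr_nonneg hl hf _ _ _)
    split_ifs
    · linarith
    · exact zero_le_one

lemma RR_nonneg (H : Finset (Finset V)) {q : Par} (hl : 0 ≤ q.l) (hf : 0 ≤ q.f0)
    (M B : Finset V) (v : V) : 0 ≤ RR H q M B v :=
  Finset.sum_nonneg (fun A _ => rr_nonneg hl hf M B A)

lemma ss_nonneg (H : Finset (Finset V)) {q : Par} (hl : 0 ≤ q.l) (hf : 0 ≤ q.f0)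
    (M B : Finset V) (x v : V) : 0 ≤ ss H q M B x v :=
  Finset.sum_nonneg (fun A _ => rr_nonneg hl hf M B A)

lemma ss_le_RR (H : Finset (Finset V)) {q : Par} (hl : 0 ≤ q.l) (hf : 0 ≤ q.f0)
    (M B : Finset V) (x v : V) : ss H q M B x v ≤ RR H q M B v := by
  unfold ss RR
  apply Finset.sum_le_sum_of_subset_of_nonneg
  · intro A hA
    rw [Finset.mem_filter] at hA ⊢
    exact ⟨hA.1, hA.2.2⟩
  · intro A _ _
    exact rr_nonneg hl hf M B A

lemma ss_eq_zero_of (H : Finset (Finset V)) {q : Par} (hl : 0 ≤ q.l) (hf : 0 ≤ q.f0)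
    {M B : Finset V} {x : V} (h : RR H q M B x = 0) (v : V) : ss H q M B x v = 0 := by
  apply le_antisymm _ (ss_nonneg H hl hf M B x v)
  rw [← h]
  unfold ss RR
  apply Finset.sum_le_sum_of_subset_of_nonneg
  · intro A hA
    rw [Finset.mem_filter] at hA ⊢
    exact ⟨hA.1, hA.2.1⟩
  · intro A _ _
    exact rr_nonneg hl hf M B A

lemma RR_step_le (H : Finset (Finset V)) {q : Par} (hl : 0 ≤ q.l) (hf : 0 ≤ q.f0)
    (M B : Finset V) (x y v : V) :
    RR H q (insert x M) (insert y B) v ≤ RR H q M B v + q.l * ss H q M B x v := by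
  have e : ss H q M B x v = ∑ A ∈ H.filter (fun A => v ∈ A),
      if x ∈ A then rr q M B A else 0 := by
    unfold ss
    rw [← Finset.sum_filter, Finset.filter_filter]
    apply Finset.sum_congr _ (fun _ _ => rfl)
    ext A
    simp only [Finset.mem_filter]
    tauto
  rw [e]
  unfold RR
  rw [Finset.mul_sum, ← Finset.sum_add_distrib]
  apply Finset.sum_le_sum
  intro A _
  refine (rr_step_le hl hf B A x y).trans (le_of_eq ?_)
  split_ifs
  · ring
  · ring

lemma pow_aux {R d : ℝ} (hR : 0 ≤ R) (hd : 0 ≤ d) (m : ℕ) :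
    (R + d) ^ (m + 1) ≤ R ^ (m + 1) + (m + 1) * d * (R + d) ^ m := by
  induction m with
  | zero => simp
  | succ m ih =>
    have h1 := mul_le_mul_of_nonneg_left ih hR
    have h2 : (0:ℝ) ≤ (R + d) ^ m := by positivity
    have h3 : 0 ≤ (m + 1 : ℝ) * d * (R + d) ^ m * d := by positivity
    push_cast
    calc (R + d) ^ (m + 1 + 1) = R * (R + d) ^ (m + 1) + d * (R + d) ^ (m + 1) := by ring
      _ ≤ R * (R ^ (m + 1) + (m + 1) * d * (R + d) ^ m) + d * (R + d) ^ (m + 1) := by linarith
      _ ≤ R ^ (m + 1 + 1) + (m + 1 + 1) * d * (R + d) ^ (m + 1) := by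
        have : (m + 1 + 1 : ℝ) * d * (R + d) ^ (m + 1)
          = R * ((m + 1) * d * (R + d) ^ m) + (m + 1 : ℝ) * d * (R + d) ^ m * d
            + d * (R + d) ^ (m + 1) := by ring
        rw [this]
        have e : R * (R ^ (m + 1) + (m + 1) * d * (R + d) ^ m)
          = R ^ (m + 1 + 1) + R * ((m + 1) * d * (R + d) ^ m) := by ring
        rw [e]
        linarith

lemma pow_aux2 {R s l : ℝ} (hs : 0 ≤ s) (hsR : s ≤ R) (hl : 0 ≤ l) (p : ℕ) :
    (R + l * s) ^ (p + 1) ≤ R ^ (p + 1) + (p + 1) * (1 + l) ^ p * l * (s * R ^ p) := by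
  have hR : 0 ≤ R := hs.trans hsR
  have h1 := pow_aux hR (mul_nonneg hl hs) p
  have h2 : (R + l * s) ^ p ≤ ((1 + l) * R) ^ p := by
    apply pow_le_pow_left₀ (by positivity)
    nlinarith
  have h3 : (p + 1 : ℝ) * (l * s) * (R + l * s) ^ p ≤ (p + 1 : ℝ) * (l * s) * ((1 + l) * R) ^ p :=
    mul_le_mul_of_nonneg_left h2 (by positivity)
  refine h1.trans ?_
  rw [mul_pow] at h3
  linarith

variable [Fintype V]

lemma UU_step_le (H : Finset (Finset V)) {q : Par} (hl : 0 ≤ q.l) (hf : 0 ≤ q.f0)
    (M B A : Finset V) (x y : V) :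
    UU H q (q.p + 1) (insert x M) (insert y B) A ≤ UU H q (q.p + 1) M B A
      + (q.p + 1) * (1 + q.l) ^ q.p * q.l
        * ∑ u ∈ (Finset.univ \ insert x (M ∪ B)).filter (fun u => u ∈ A),
            ss H q M B x u * RR H q M B u ^ q.p := by
  unfold UU
  set F : Finset V := (Finset.univ \ insert x (M ∪ B)).filter (fun u => u ∈ A) with hF
  have hsub1 : A \ (insert x M ∪ insert y B) ⊆ F := by
    intro u hu
    rw [hF]
    simp only [Finset.mem_sdiff, Finset.mem_union, Finset.mem_insert, Finset.mem_filter,
      Finset.mem_univ, true_and] at hu ⊢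
    tauto
  have hsub2 : F ⊆ A \ (M ∪ B) := by
    intro u hu
    rw [hF] at hu
    simp only [Finset.mem_sdiff, Finset.mem_union, Finset.mem_insert, Finset.mem_filter,
      Finset.mem_univ, true_and] at hu ⊢
    tauto
  have hR0 := RR_nonneg H hl hf M B
  have hs0 := ss_nonneg H hl hf M B x
  calc ∑ u ∈ A \ (insert x M ∪ insert y B), RR H q (insert x M) (insert y B) u ^ (q.p + 1)
      ≤ ∑ u ∈ F, RR H q (insert x M) (insert y B) u ^ (q.p + 1) := by
        apply Finset.sum_le_sum_of_subset_of_nonneg hsub1
        intro u _ _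
        exact pow_nonneg (RR_nonneg H hl hf _ _ _) _
    _ ≤ ∑ u ∈ F, (RR H q M B u ^ (q.p + 1)
          + (q.p + 1) * (1 + q.l) ^ q.p * q.l * (ss H q M B x u * RR H q M B u ^ q.p)) := by
        apply Finset.sum_le_sum
        intro u _
        refine le_trans (pow_le_pow_left₀ (RR_nonneg H hl hf _ _ _)
          (RR_step_le H hl hf M B x y u) _) ?_
        exact pow_aux2 (hs0 u) (ss_le_RR H hl hf M B x u) hl q.p
    _ = ∑ u ∈ F, RR H q M B u ^ (q.p + 1) + (q.p + 1) * (1 + q.l) ^ q.p * q.l
          * ∑ u ∈ F, ss H q M B x u * RR H q M B u ^ q.p := by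
        rw [Finset.sum_add_distrib, Finset.mul_sum]
    _ ≤ _ := by
        apply add_le_add_left
        apply Finset.sum_le_sum_of_subset_of_nonneg hsub2
        intro u _ _
        exact pow_nonneg (hR0 u) _

/-- Which weights can increase when Maker takes `x`. -/
def inC (H : Finset (Finset V)) (x : V) : Finset V ⊕ (V ⊕ Finset V) → Prop
  | Sum.inl A => A ∈ H ∧ x ∈ A
  | Sum.inr (Sum.inl v) => ∃ A ∈ H, x ∈ A ∧ v ∈ A
  | Sum.inr (Sum.inr A) => A ∈ H ∧ ∃ v ∈ A, ∃ A' ∈ H, x ∈ A' ∧ v ∈ A'

/-- The dependency graph. -/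
def GG (H : Finset (Finset V)) : SimpleGraph (Finset V ⊕ (V ⊕ Finset V)) where
  Adj i j := i ≠ j ∧ ∃ x, inC H x i ∧ inC H x j
  symm := by
    constructor
    rintro i j ⟨h1, x, h2, h3⟩
    exact ⟨h1.symm, x, h3, h2⟩
  loopless := by
    constructor
    rintro i ⟨h, _⟩
    exact h rfl

/-- The weights of the bad events. -/
noncomputable def wt (H : Finset (Finset V)) (q : Par) (M B : Finset V) :
    Finset V ⊕ (V ⊕ Finset V) → ℝ
  | Sum.inl A => if A ∈ H ∧ Disjoint A B then (max (rr q M B A) (Real.exp (-1))) ^ q.k else 0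
  | Sum.inr (Sum.inl v) => if v ∈ M ∪ B then 0
      else (max (RR H q M B v / q.b) (Real.exp (-1))) ^ q.k
  | Sum.inr (Sum.inr A) => if A ∈ H ∧ Disjoint A B then
      Real.exp (q.β * (UU H q (q.p + 1) M B A - q.Us)) else 0

lemma wt_nonneg (H : Finset (Finset V)) (q : Par) (M B : Finset V) (i) : 0 ≤ wt H q M B i := by
  have h := Real.exp_pos (-1)
  rcases i with A | v | A
  · simp only [wt]
    split_ifs
    · exact pow_nonneg (h.le.trans (le_max_right _ _)) _
    · exact le_rfl
  · simp only [wt]
    split_ifs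
    · exact le_rfl
    · exact pow_nonneg (h.le.trans (le_max_right _ _)) _
  · simp only [wt]
    split_ifs
    · exact Real.exp_nonneg _
    · exact le_rfl

lemma disj_of_insert {A B : Finset V} {y : V} (h : Disjoint A (insert y B)) : Disjoint A B := by
  rw [Finset.disjoint_insert_right] at h
  exact h.2

lemma ss_eq_zero (H : Finset (Finset V)) (q : Par) (M B : Finset V) {x v : V}
    (h : ¬ ∃ A ∈ H, x ∈ A ∧ v ∈ A) : ss H q M B x v = 0 := by
  unfold ss
  apply Finset.sum_eq_zero
  intro A hA
  rw [Finset.mem_filter] at hA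
  exact absurd ⟨A, hA.1, hA.2⟩ h

/-- A weight does not increase when the dangers it depends on do not. -/
lemma wt_step_le (H : Finset (Finset V)) {q : Par} (hl : 0 ≤ q.l) (hf : 0 ≤ q.f0) (hb : 0 < q.b)
    (hβ : 0 ≤ q.β) (M B : Finset V) (x y : V) (i : Finset V ⊕ (V ⊕ Finset V))
    (h1 : ∀ A, i = Sum.inl A → A ∈ H → x ∈ A → rr q M B A = 0)
    (h2 : ∀ v, i = Sum.inr (Sum.inl v) → ss H q M B x v = 0)
    (h3 : ∀ A, i = Sum.inr (Sum.inr A) → A ∈ H → ∀ u ∈ A, ss H q M B x u = 0) :
    wt H q (insert x M) (insert y B) i ≤ wt H q M B i := by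
  rcases i with A | v | A
  · simp only [wt]
    by_cases hd : A ∈ H ∧ Disjoint A (insert y B)
    · have hd' : A ∈ H ∧ Disjoint A B := ⟨hd.1, disj_of_insert hd.2⟩
      rw [if_pos hd, if_pos hd']
      apply pow_le_pow_left₀
      · exact (Real.exp_pos _).le.trans (le_max_right _ _)
      · apply max_le_max_right
        have h := rr_step_le hl hf (M := M) B A x y
        by_cases hx : x ∈ A
        · rw [h1 A rfl hd.1 hx, mul_zero] at h
          rw [h1 A rfl hd.1 hx]
          exact h
        · rwa [if_neg hx, one_mul] at h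
    · rw [if_neg hd]
      split_ifs
      · exact pow_nonneg ((Real.exp_pos _).le.trans (le_max_right _ _)) _
      · exact le_rfl
  · simp only [wt]
    by_cases hv : v ∈ insert x M ∪ insert y B
    · rw [if_pos hv]
      split_ifs
      · exact le_rfl
      · exact pow_nonneg ((Real.exp_pos _).le.trans (le_max_right _ _)) _
    · have hv' : v ∉ M ∪ B := by
        intro h
        apply hv
        rw [Finset.mem_union] at h ⊢
        rcases h with h | h
        · exact Or.inl (Finset.mem_insert_of_mem h)
        · exact Or.inr (Finset.mem_insert_of_mem h)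
      rw [if_neg hv, if_neg hv']
      apply pow_le_pow_left₀
      · exact (Real.exp_pos _).le.trans (le_max_right _ _)
      · apply max_le_max_right
        apply div_le_div_of_nonneg_right _ hb.le
        have h := RR_step_le H hl hf M B x y v
        rwa [h2 v rfl, mul_zero, add_zero] at h
  · simp only [wt]
    by_cases hd : A ∈ H ∧ Disjoint A (insert y B)
    · have hd' : A ∈ H ∧ Disjoint A B := ⟨hd.1, disj_of_insert hd.2⟩
      rw [if_pos hd, if_pos hd']
      apply Real.exp_le_exp.2
      apply mul_le_mul_of_nonneg_left _ hβ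
      apply sub_le_sub_right
      have h := UU_step_le H hl hf M B A x y
      have e : ∑ u ∈ (Finset.univ \ insert x (M ∪ B)).filter (fun u => u ∈ A),
            ss H q M B x u * RR H q M B u ^ q.p = 0 := by
        apply Finset.sum_eq_zero
        intro u hu
        rw [h3 A rfl hd.1 u (Finset.mem_filter.1 hu).2, zero_mul]
      rwa [e, mul_zero, add_zero] at h
    · rw [if_neg hd]
      split_ifs
      · exact Real.exp_nonneg _
      · exact le_rfl

/-- What the region says about the dangers. -/
lemma bounds_of_R (H : Finset (Finset V)) {q : Par} (hb : 0 < q.b) (hβ : 0 < q.β)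
    {M B : Finset V} (hR : R (GG H) (wt H q M B)) :
    (∀ A ∈ H, Disjoint A B → rr q M B A < 1) ∧
    (∀ v, v ∉ M ∪ B → RR H q M B v < q.b) ∧
    (∀ A ∈ H, Disjoint A B → UU H q (q.p + 1) M B A < q.Us) := by
  refine ⟨?_, ?_, ?_⟩
  · intro A hA hd
    have h := R_lt_one (GG H) hR (Sum.inl A)
    simp only [wt] at h
    rw [if_pos ⟨hA, hd⟩] at h
    by_contra hge
    push Not at hge
    exact absurd (one_le_pow₀ (hge.trans (le_max_left _ _))) (not_le.2 h)
  · intro v hv
    have h := R_lt_one (GG H) hR (Sum.inr (Sum.inl v))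
    simp only [wt] at h
    rw [if_neg hv] at h
    by_contra hge
    push Not at hge
    have h1 : 1 ≤ RR H q M B v / q.b := by
      rw [le_div_iff₀ hb]
      linarith
    exact absurd (one_le_pow₀ (h1.trans (le_max_left _ _))) (not_le.2 h)
  · intro A hA hd
    have h := R_lt_one (GG H) hR (Sum.inr (Sum.inr A))
    simp only [wt] at h
    rw [if_pos ⟨hA, hd⟩, Real.exp_lt_one_iff] at h
    by_contra hge
    push Not at hge
    have := mul_nonneg hβ.le (sub_nonneg.2 hge)
    linarith

lemma UU_le (H : Finset (Finset V)) {q : Par} (hl : 0 ≤ q.l) (hf : 0 ≤ q.f0)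
    (M B A : Finset V) {n : ℕ} (hA : A.card ≤ n) {τ Ts : ℝ} (hτ : 0 < τ)
    (h4 : 2 * n * τ ^ q.p ≤ Ts) (h : UU H q (q.p + 1) M B A < τ * Ts / 2) :
    UU H q q.p M B A ≤ Ts := by
  have key : τ * UU H q q.p M B A ≤ UU H q (q.p + 1) M B A + n * τ ^ (q.p + 1) := by
    unfold UU
    have h1 : τ * ∑ u ∈ A \ (M ∪ B), RR H q M B u ^ q.p
        ≤ ∑ u ∈ A \ (M ∪ B), (RR H q M B u ^ (q.p + 1) + τ ^ (q.p + 1)) := by
      rw [Finset.mul_sum]
      apply Finset.sum_le_sum
      intro u _
      have hR := RR_nonneg H hl hf M B u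
      rcases le_total τ (RR H q M B u) with hc | hc
      · have h2 : 0 ≤ RR H q M B u ^ q.p := pow_nonneg hR _
        have h3 : 0 ≤ τ ^ (q.p + 1) := by positivity
        have h5 := mul_le_mul_of_nonneg_right hc h2
        rw [pow_succ (RR H q M B u)]
        linarith
      · have h2 : 0 ≤ RR H q M B u ^ (q.p + 1) := pow_nonneg hR _
        have h3 : RR H q M B u ^ q.p ≤ τ ^ q.p := pow_le_pow_left₀ hR hc _
        have h5 := mul_le_mul_of_nonneg_left h3 hτ.le
        rw [pow_succ τ]
        linarith
    rw [Finset.sum_add_distrib, Finset.sum_const, nsmul_eq_mul] at h1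
    have h2 : ((A \ (M ∪ B)).card : ℝ) ≤ n := by
      exact_mod_cast (Finset.card_le_card Finset.sdiff_subset).trans hA
    have h3 : 0 ≤ τ ^ (q.p + 1) := by positivity
    have := mul_le_mul_of_nonneg_right h2 h3
    linarith
  have h5 : n * τ ^ (q.p + 1) ≤ τ * Ts / 2 := by
    rw [pow_succ]
    nlinarith
  have h6 : τ * UU H q q.p M B A < τ * Ts := by linarith
  exact (lt_of_mul_lt_mul_left h6 hτ.le).le

lemma ss_eq_alive (H : Finset (Finset V)) (q : Par) (M B : Finset V) (x v : V) :
    ∑ A ∈ (H.filter (fun A => x ∈ A ∧ Disjoint A B)).filter (fun A => v ∈ A), rr q M B A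
      = ss H q M B x v := by
  unfold ss
  apply Finset.sum_subset
  · intro A hA
    simp only [Finset.mem_filter] at hA ⊢
    tauto
  · intro A hA hA'
    simp only [Finset.mem_filter] at hA hA'
    unfold rr
    rw [if_neg]
    tauto

/-- The round of the game. -/
theorem round (H : Finset (Finset V)) {q : Par} {n : ℕ} (hH : ∀ A ∈ H, A.card = n)
    (hl : 0 < q.l) (hf0 : (1 + q.l) ^ (n - 1) * q.f0 = 1) (hb : 0 < q.b) (hβ : 0 < q.β)
    {τ Ts : ℝ} (hτ : 0 < τ) (hTs : 0 < Ts)
    (H1 : q.k * q.l * ((1 + q.l) * q.b) ≤ Real.exp (-1))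
    (H2 : q.k * q.l * Ts ≤ Real.exp (-1) * (q.b * Real.exp (-1) / (1 + q.l)) ^ q.p)
    (H3 : q.β * ((q.p + 1) * (1 + q.l) ^ q.p * q.l) * (q.b * Ts) ≤ 1)
    (H4 : 2 * n * τ ^ q.p ≤ Ts) (H4' : q.Us = τ * Ts / 2)
    {M B : Finset V} (hMB : Disjoint M B) (hR : R (GG H) (wt H q M B))
    {x : V} (hxM : x ∉ M) (hxB : x ∉ B) :
    (∀ e ∈ H, ¬ e ⊆ insert x M) ∧ (insert x M ∪ B = Finset.univ ∨
      ∃ y, y ∉ insert x M ∧ y ∉ B ∧ R (GG H) (wt H q (insert x M) (insert y B))) := by
  have hθ : 0 < Real.exp (-1) := Real.exp_pos _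
  have hl0 := hl.le
  have h1l : 0 < 1 + q.l := by linarith
  have hf : 0 < q.f0 := by
    have : 0 < (1 + q.l) ^ (n - 1) := by positivity
    by_contra hneg
    push Not at hneg
    have := mul_nonpos_of_nonneg_of_nonpos this.le hneg
    linarith
  obtain ⟨B1, B2, B3⟩ := bounds_of_R H hb hβ hR
  have hno : ∀ e ∈ H, ¬ e ⊆ insert x M := by
    intro e he hsub
    have hd : Disjoint e B := by
      rw [Finset.disjoint_left]
      intro u hu huB
      rcases Finset.mem_insert.1 (hsub hu) with h | h
      · rw [h] at huB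
        exact hxB huB
      · exact Finset.disjoint_left.1 hMB h huB
    have h := B1 e he hd
    have hc : n - 1 ≤ (e ∩ M).card := by
      have h2 : e ⊆ insert x (e ∩ M) := by
        intro u hu
        rcases Finset.mem_insert.1 (hsub hu) with h | h
        · exact Finset.mem_insert.2 (Or.inl h)
        · exact Finset.mem_insert.2 (Or.inr (Finset.mem_inter.2 ⟨hu, h⟩))
      have h3 := (Finset.card_le_card h2).trans (Finset.card_insert_le _ _)
      rw [hH e he] at h3
      omega
    have h2 : 1 ≤ rr q M B e := by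
      unfold rr
      rw [if_pos hd]
      have h1l' : (1:ℝ) ≤ 1 + q.l := by linarith
      exact hf0.symm.le.trans (mul_le_mul_of_nonneg_right (pow_le_pow_right₀ h1l' hc) hf.le)
    linarith
  refine ⟨hno, ?_⟩
  by_cases hfull : insert x M ∪ B = Finset.univ
  · exact Or.inl hfull
  right
  have hw0 := wt_nonneg H q M B
  set F : Finset V := Finset.univ \ insert x (M ∪ B) with hF
  have memF : ∀ y, y ∈ F ↔ y ∉ insert x M ∧ y ∉ B := by
    intro y
    rw [hF]
    simp only [Finset.mem_sdiff, Finset.mem_univ, Finset.mem_insert, Finset.mem_union, true_and]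
    tauto
  by_cases hzero : RR H q M B x = 0
  · -- nothing alive through x
    have hex : ∃ y, y ∉ insert x M ∪ B := by
      by_contra hcon
      push Not at hcon
      exact hfull (Finset.eq_univ_iff_forall.2 hcon)
    obtain ⟨y, hy⟩ := hex
    rw [Finset.mem_union] at hy
    push Not at hy
    refine ⟨y, hy.1, hy.2, ?_⟩
    apply R_mono (GG H) hR
    intro i
    apply wt_step_le H hl0 hf.le hb hβ.le
    · intro A _ hA hx
      apply le_antisymm _ (rr_nonneg hl0 hf.le _ _ _)
      rw [← hzero]
      unfold RR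
      exact Finset.single_le_sum (f := fun A => rr q M B A)
        (fun A' _ => rr_nonneg hl0 hf.le _ _ _) (Finset.mem_filter.2 ⟨hA, hx⟩)
    · intro v _
      exact ss_eq_zero_of H hl0 hf.le hzero v
    · intro A _ _ u _
      exact ss_eq_zero_of H hl0 hf.le hzero u
  · set HA : Finset (Finset V) := H.filter (fun A => x ∈ A ∧ Disjoint A B) with hHA
    have memHA : ∀ A, A ∈ HA ↔ A ∈ H ∧ x ∈ A ∧ Disjoint A B := by
      intro A
      rw [hHA, Finset.mem_filter]
    have hrpos : ∀ A, Disjoint A B → 0 < rr q M B A := by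
      intro A hd
      unfold rr
      rw [if_pos hd]
      positivity
    have hRR0 := RR_nonneg H hl0 hf.le M B
    have hss0 := ss_nonneg H hl0 hf.le M B x
    have hsub2 : ∀ A, F.filter (fun y => y ∈ A) ⊆ A \ (M ∪ B) := by
      intro A u hu
      rw [Finset.mem_filter, memF] at hu
      rw [Finset.mem_sdiff, Finset.mem_union]
      refine ⟨hu.2, ?_⟩
      rintro (h | h)
      · exact hu.1.1 (Finset.mem_insert_of_mem h)
      · exact hu.1.2 h
    have hHAne : HA.Nonempty := by
      by_contra hemp
      rw [Finset.not_nonempty_iff_eq_empty] at hemp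
      apply hzero
      unfold RR
      apply Finset.sum_eq_zero
      intro A hA
      rw [Finset.mem_filter] at hA
      unfold rr
      rw [if_neg]
      intro hd
      have : A ∈ HA := (memHA A).2 ⟨hA.1, hA.2, hd⟩
      rw [hemp] at this
      exact absurd this (Finset.notMem_empty _)
    have hTA : ∀ A ∈ HA, ∑ y ∈ F.filter (fun y => y ∈ A), RR H q M B y ^ q.p ≤ Ts := by
      intro A hA
      have hA' := (memHA A).1 hA
      have h := B3 A hA'.1 hA'.2.2
      rw [H4'] at h
      refine le_trans ?_ (UU_le H hl0 hf.le M B A (hH A hA'.1).le hτ H4 h)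
      unfold UU
      apply Finset.sum_le_sum_of_subset_of_nonneg (hsub2 A)
      intro u _ _
      exact pow_nonneg (hRR0 u) _
    have hρpos : ∀ A ∈ HA, 0 < ∑ y ∈ F.filter (fun y => y ∈ A), RR H q M B y ^ q.p := by
      intro A hA
      have hA' := (memHA A).1 hA
      obtain ⟨y, hyA, hy⟩ := Finset.not_subset.1 (hno A hA'.1)
      have hyF : y ∈ F.filter (fun y => y ∈ A) := by
        rw [Finset.mem_filter, memF]
        exact ⟨⟨hy, fun h => Finset.disjoint_left.1 hA'.2.2 hyA h⟩, hyA⟩
      have hy0 : 0 < RR H q M B y := by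
        apply lt_of_lt_of_le (hrpos A hA'.2.2)
        unfold RR
        exact Finset.single_le_sum (f := fun A => rr q M B A)
          (fun A' _ => rr_nonneg hl0 hf.le _ _ _) (Finset.mem_filter.2 ⟨hA'.1, hyA⟩)
      apply Finset.sum_pos'
      · intro u _
        exact pow_nonneg (hRR0 u) _
      · exact ⟨y, hyF, pow_pos hy0 _⟩
    have hRx : ∑ A ∈ HA, rr q M B A ≤ q.b := by
      have hx : x ∉ M ∪ B := by
        rw [Finset.mem_union]
        tauto
      refine le_trans ?_ (B2 x hx).le
      unfold RR
      apply Finset.sum_le_sum_of_subset_of_nonneg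
      · intro A hA
        have := (memHA A).1 hA
        exact Finset.mem_filter.2 ⟨this.1, this.2.1⟩
      · intro A _ _
        exact rr_nonneg hl0 hf.le _ _ _
    obtain ⟨P, P0, P1, P2, P3⟩ := exists_dist HA F (rr q M B) (fun y => RR H q M B y ^ q.p)
      (fun A hA => hrpos A ((memHA A).1 hA).2.2) (fun y => pow_nonneg (hRR0 y) _) hρpos hHAne
      hRx hTA
    have P2' : ∀ v ∈ F, ss H q M B x v * RR H q M B v ^ q.p / (q.b * Ts) ≤ P v := by
      intro v hv
      have := P2 v hv
      rwa [ss_eq_alive] at this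
    classical
    set C : Finset (Finset V ⊕ (V ⊕ Finset V)) := Finset.univ.filter (fun i => inC H x i) with hC
    have hclique : ∀ i ∈ C, ∀ j ∈ C, i ≠ j → (GG H).Adj i j := by
      intro i hi j hj hij
      rw [hC, Finset.mem_filter] at hi hj
      exact ⟨hij, x, hi.2, hj.2⟩
    have hfin : ∃ y ∈ F, R (GG H) (wt H q (insert x M) (insert y B)) := by
     apply R_round (GG H) hw0 hR hclique F P P0 P1
      (fun y => wt H q (insert x M) (insert y B)) (fun y _ i => wt_nonneg H q _ _ i)
     · -- outside the clique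
      intro y _ i hi
      rw [hC, Finset.mem_filter] at hi
      apply wt_step_le H hl0 hf.le hb hβ.le
      · rintro A rfl hA hx
        exact absurd ⟨Finset.mem_univ _, hA, hx⟩ hi
      · rintro v rfl
        apply ss_eq_zero
        intro h
        exact hi ⟨Finset.mem_univ _, h⟩
      · rintro A rfl hA u hu
        apply ss_eq_zero
        intro h
        exact hi ⟨Finset.mem_univ _, hA, u, hu, h⟩
     · -- inside the clique
      intro i _
      rcases i with A | v | A
      · -- an edge
        simp only [wt]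
        by_cases hd : A ∈ H ∧ Disjoint A B
        · by_cases hxA : x ∈ A
          · rw [if_pos hd]
            have hAHA : A ∈ HA := (memHA A).2 ⟨hd.1, hxA, hd.2⟩
            have hr := hrpos A hd.2
            have hw : ∀ y ∈ F, (if A ∈ H ∧ Disjoint A (insert y B) then
                (max (rr q (insert x M) (insert y B) A) (Real.exp (-1))) ^ q.k else 0)
                ≤ (max ((1 + q.l) * rr q M B A) (Real.exp (-1))) ^ q.k := by
              intro y _
              split_ifs
              · apply pow_le_pow_left₀ (hθ.le.trans (le_max_right _ _))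
                apply max_le_max_right
                have := rr_step_le hl0 hf.le (M := M) B A x y
                rwa [if_pos hxA] at this
              · exact pow_nonneg (hθ.le.trans (le_max_right _ _)) _
            have hz : ∀ y ∈ F.filter (fun y => y ∈ A), (if A ∈ H ∧ Disjoint A (insert y B) then
                (max (rr q (insert x M) (insert y B) A) (Real.exp (-1))) ^ q.k else 0) = 0 := by
              intro y hy
              rw [if_neg]
              rintro ⟨_, h⟩
              rw [Finset.disjoint_insert_right] at h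
              exact h.1 (Finset.mem_filter.1 hy).2
            by_cases hc : (1 + q.l) * rr q M B A ≤ Real.exp (-1)
            · apply mix F _ (Finset.filter_subset _ _) P _ P0 P1 hw
                (pow_nonneg (hθ.le.trans (le_max_right _ _)) _)
                (pow_nonneg (hθ.le.trans (le_max_right _ _)) _) hz (ε := 0)
              · rw [Real.exp_zero, mul_one, max_eq_right hc]
                exact pow_le_pow_left₀ hθ.le (le_max_right _ _) _
              · apply Finset.sum_nonneg
                intro y hy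
                exact P0 y (Finset.mem_filter.1 hy).1
            · push Not at hc
              apply mix F _ (Finset.filter_subset _ _) P _ P0 P1 hw
                (pow_nonneg (hθ.le.trans (le_max_right _ _)) _)
                (pow_nonneg (hθ.le.trans (le_max_right _ _)) _) hz (ε := q.k * q.l)
              · have hm : 0 ≤ max (rr q M B A) (Real.exp (-1)) := hθ.le.trans (le_max_right _ _)
                have e1 : max ((1 + q.l) * rr q M B A) (Real.exp (-1))
                    ≤ max (rr q M B A) (Real.exp (-1)) * (1 + q.l) := by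
                  apply max_le
                  · have := mul_le_mul_of_nonneg_left
                      (le_max_left (rr q M B A) (Real.exp (-1))) h1l.le
                    linarith
                  · have h5 := le_max_right (rr q M B A) (Real.exp (-1))
                    nlinarith
                have e2 : (1 + q.l) ^ q.k ≤ Real.exp (q.k * q.l) := by
                  rw [Real.exp_nat_mul]
                  apply pow_le_pow_left₀ h1l.le
                  have := Real.add_one_le_exp q.l
                  linarith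
                calc max ((1 + q.l) * rr q M B A) (Real.exp (-1)) ^ q.k
                    ≤ (max (rr q M B A) (Real.exp (-1)) * (1 + q.l)) ^ q.k :=
                      pow_le_pow_left₀ (hθ.le.trans (le_max_right _ _)) e1 _
                  _ = max (rr q M B A) (Real.exp (-1)) ^ q.k * (1 + q.l) ^ q.k := mul_pow _ _ _
                  _ ≤ _ := mul_le_mul_of_nonneg_left e2 (pow_nonneg hm _)
              · refine le_trans ?_ (P3 A hAHA)
                rw [le_div_iff₀ hb]
                have h5 : (1 + q.l) * (q.k * q.l * q.b) ≤ (1 + q.l) * rr q M B A := by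
                  calc (1 + q.l) * (q.k * q.l * q.b) = q.k * q.l * ((1 + q.l) * q.b) := by ring
                    _ ≤ Real.exp (-1) := H1
                    _ ≤ _ := hc.le
                exact le_of_mul_le_mul_left h5 h1l
          · -- not in the clique in fact
            have hle : ∀ y ∈ F, P y * (if A ∈ H ∧ Disjoint A (insert y B) then
                (max (rr q (insert x M) (insert y B) A) (Real.exp (-1))) ^ q.k else 0)
                ≤ P y * wt H q M B (Sum.inl A) := by
              intro y hy
              apply mul_le_mul_of_nonneg_left _ (P0 y hy)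
              exact wt_step_le H hl0 hf.le hb hβ.le M B x y (Sum.inl A)
                (by
                  rintro A' h _ hx
                  rw [Sum.inl.injEq] at h
                  rw [← h] at hx
                  exact absurd hx hxA) (by rintro v h; cases h) (by rintro A' h; cases h)
            have := Finset.sum_le_sum hle
            rw [← Finset.sum_mul, P1, one_mul] at this
            exact this
        · rw [if_neg hd]
          apply le_of_eq
          apply Finset.sum_eq_zero
          intro y _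
          rw [if_neg, mul_zero]
          rintro ⟨h1, h2⟩
          exact hd ⟨h1, disj_of_insert h2⟩
      · -- a vertex
        simp only [wt]
        by_cases hvF : v ∈ F
        · have hv' : v ∉ M ∪ B := by
            rw [memF] at hvF
            rw [Finset.mem_union]
            rintro (h | h)
            · exact hvF.1 (Finset.mem_insert_of_mem h)
            · exact hvF.2 h
          rw [if_neg hv']
          set Rv : ℝ := RR H q M B v with hRv
          set s : ℝ := ss H q M B x v with hs
          have hRv0 : 0 ≤ Rv := hRR0 v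
          have hs0 : 0 ≤ s := hss0 v
          have hsR : s ≤ Rv := ss_le_RR H hl0 hf.le M B x v
          have hw : ∀ y ∈ F, (if v ∈ insert x M ∪ insert y B then 0 else
              (max (RR H q (insert x M) (insert y B) v / q.b) (Real.exp (-1))) ^ q.k)
              ≤ (max ((Rv + q.l * s) / q.b) (Real.exp (-1))) ^ q.k := by
            intro y _
            split_ifs
            · exact pow_nonneg (hθ.le.trans (le_max_right _ _)) _
            · apply pow_le_pow_left₀ (hθ.le.trans (le_max_right _ _))
              apply max_le_max_right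
              exact div_le_div_of_nonneg_right (RR_step_le H hl0 hf.le M B x y v) hb.le
          have hz : ∀ y ∈ ({v} : Finset V), (if v ∈ insert x M ∪ insert y B then 0 else
              (max (RR H q (insert x M) (insert y B) v / q.b) (Real.exp (-1))) ^ q.k) = 0 := by
            intro y hy
            rw [Finset.mem_singleton] at hy
            rw [if_pos]
            rw [hy, Finset.mem_union]
            exact Or.inr (Finset.mem_insert_self _ _)
          have hSF : ({v} : Finset V) ⊆ F := Finset.singleton_subset_iff.2 hvF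
          by_cases hc : (Rv + q.l * s) / q.b ≤ Real.exp (-1)
          · apply mix F _ hSF P _ P0 P1 hw
              (pow_nonneg (hθ.le.trans (le_max_right _ _)) _)
              (pow_nonneg (hθ.le.trans (le_max_right _ _)) _) hz (ε := 0)
            · rw [Real.exp_zero, mul_one, max_eq_right hc]
              exact pow_le_pow_left₀ hθ.le (le_max_right _ _) _
            · rw [Finset.sum_singleton]
              exact P0 v hvF
          · push Not at hc
            rw [lt_div_iff₀ hb] at hc
            have hRv1 : q.b * Real.exp (-1) / (1 + q.l) ≤ Rv := by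
              rw [div_le_iff₀ h1l]
              nlinarith
            have hRv2 : (q.b * Real.exp (-1) / (1 + q.l)) ^ q.p ≤ Rv ^ q.p :=
              pow_le_pow_left₀ (by positivity) hRv1 _
            apply mix F _ hSF P _ P0 P1 hw
              (pow_nonneg (hθ.le.trans (le_max_right _ _)) _)
              (pow_nonneg (hθ.le.trans (le_max_right _ _)) _) hz
              (ε := q.k * (q.l * s / (q.b * Real.exp (-1))))
            · set z : ℝ := q.l * s / (q.b * Real.exp (-1)) with hz'
              have hz0 : 0 ≤ z := by positivity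
              have hm : 0 ≤ max (Rv / q.b) (Real.exp (-1)) := hθ.le.trans (le_max_right _ _)
              have hm1 := le_max_left (Rv / q.b) (Real.exp (-1))
              have hm2 := le_max_right (Rv / q.b) (Real.exp (-1))
              have e1 : max ((Rv + q.l * s) / q.b) (Real.exp (-1))
                  ≤ max (Rv / q.b) (Real.exp (-1)) * (1 + z) := by
                apply max_le
                · have e3 : (Rv + q.l * s) / q.b = Rv / q.b + Real.exp (-1) * z := by
                    rw [hz']
                    field_simp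
                  rw [e3, mul_add, mul_one]
                  have := mul_le_mul_of_nonneg_right hm2 hz0
                  linarith
                · have := mul_nonneg hm hz0
                  rw [mul_add, mul_one]
                  linarith
              have e2 : (1 + z) ^ q.k ≤ Real.exp (q.k * z) := by
                rw [Real.exp_nat_mul]
                apply pow_le_pow_left₀ (by linarith)
                have := Real.add_one_le_exp z
                linarith
              calc max ((Rv + q.l * s) / q.b) (Real.exp (-1)) ^ q.k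
                  ≤ (max (Rv / q.b) (Real.exp (-1)) * (1 + z)) ^ q.k :=
                    pow_le_pow_left₀ (hθ.le.trans (le_max_right _ _)) e1 _
                _ = max (Rv / q.b) (Real.exp (-1)) ^ q.k * (1 + z) ^ q.k := mul_pow _ _ _
                _ ≤ _ := mul_le_mul_of_nonneg_left e2 (pow_nonneg hm _)
            · rw [Finset.sum_singleton]
              refine le_trans ?_ (P2' v hvF)
              have e4 : q.k * (q.l * s / (q.b * Real.exp (-1)))
                  = s * (q.k * q.l) / (q.b * Real.exp (-1)) := by ring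
              rw [e4, div_le_div_iff₀ (by positivity) (by positivity)]
              have e5 : q.k * q.l * Ts ≤ Real.exp (-1) * Rv ^ q.p :=
                H2.trans (mul_le_mul_of_nonneg_left hRv2 hθ.le)
              have e6 := mul_le_mul_of_nonneg_left e5 (mul_nonneg hs0 hb.le)
              calc s * (q.k * q.l) * (q.b * Ts) = s * q.b * (q.k * q.l * Ts) := by ring
                _ ≤ s * q.b * (Real.exp (-1) * Rv ^ q.p) := e6
                _ = _ := by ring
        · have hzero' : ∀ y ∈ F, P y * (if v ∈ insert x M ∪ insert y B then 0 else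
              (max (RR H q (insert x M) (insert y B) v / q.b) (Real.exp (-1))) ^ q.k) = 0 := by
            intro y _
            rw [if_pos, mul_zero]
            rw [memF] at hvF
            rw [Finset.mem_union]
            by_cases h : v ∈ insert x M
            · exact Or.inl h
            · right
              apply Finset.mem_insert_of_mem
              by_contra h2
              exact hvF ⟨h, h2⟩
          rw [Finset.sum_eq_zero hzero']
          split_ifs
          · exact le_rfl
          · exact pow_nonneg (hθ.le.trans (le_max_right _ _)) _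
      · -- a balance event
        simp only [wt]
        by_cases hd : A ∈ H ∧ Disjoint A B
        · rw [if_pos hd]
          set I : ℝ := (q.p + 1) * (1 + q.l) ^ q.p * q.l
            * ∑ u ∈ F.filter (fun u => u ∈ A), ss H q M B x u * RR H q M B u ^ q.p with hI
          have hw : ∀ y ∈ F, (if A ∈ H ∧ Disjoint A (insert y B) then
              Real.exp (q.β * (UU H q (q.p + 1) (insert x M) (insert y B) A - q.Us)) else 0)
              ≤ Real.exp (q.β * (UU H q (q.p + 1) M B A + I - q.Us)) := by
            intro y _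
            split_ifs
            · apply Real.exp_le_exp.2
              apply mul_le_mul_of_nonneg_left _ hβ.le
              apply sub_le_sub_right
              exact UU_step_le H hl0 hf.le M B A x y
            · exact Real.exp_nonneg _
          have hz : ∀ y ∈ F.filter (fun y => y ∈ A), (if A ∈ H ∧ Disjoint A (insert y B) then
              Real.exp (q.β * (UU H q (q.p + 1) (insert x M) (insert y B) A - q.Us)) else 0)
              = 0 := by
            intro y hy
            rw [if_neg]
            rintro ⟨_, h⟩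
            rw [Finset.disjoint_insert_right] at h
            exact h.1 (Finset.mem_filter.1 hy).2
          apply mix F _ (Finset.filter_subset _ _) P _ P0 P1 hw (Real.exp_nonneg _)
            (Real.exp_nonneg _) hz (ε := q.β * I)
          · rw [← Real.exp_add]
            apply Real.exp_le_exp.2
            linarith
          · rw [hI, ← mul_assoc, Finset.mul_sum]
            apply Finset.sum_le_sum
            intro u hu
            have huF := (Finset.mem_filter.1 hu).1
            refine le_trans ?_ (P2' u huF)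
            rw [le_div_iff₀ (by positivity)]
            have hn : 0 ≤ ss H q M B x u * RR H q M B u ^ q.p :=
              mul_nonneg (hss0 u) (pow_nonneg (hRR0 u) _)
            calc q.β * ((q.p + 1) * (1 + q.l) ^ q.p * q.l)
                  * (ss H q M B x u * RR H q M B u ^ q.p) * (q.b * Ts)
                = (q.β * ((q.p + 1) * (1 + q.l) ^ q.p * q.l) * (q.b * Ts))
                  * (ss H q M B x u * RR H q M B u ^ q.p) := by ring
              _ ≤ 1 * (ss H q M B x u * RR H q M B u ^ q.p) :=
                mul_le_mul_of_nonneg_right H3 hn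
              _ = _ := one_mul _
        · rw [if_neg hd]
          apply le_of_eq
          apply Finset.sum_eq_zero
          intro y _
          rw [if_neg, mul_zero]
          rintro ⟨h1, h2⟩
          exact hd ⟨h1, disj_of_insert h2⟩
    obtain ⟨y, hyF, hy⟩ := hfin
    rw [memF] at hyF
    exact ⟨y, hyF.1, hyF.2, hy⟩

/-- The points sharing an edge with `x`. -/
def NN (H : Finset (Finset V)) (x : V) : Finset V := (H.filter (fun A => x ∈ A)).biUnion id

lemma mem_NN (H : Finset (Finset V)) (x v : V) : v ∈ NN H x ↔ ∃ A ∈ H, x ∈ A ∧ v ∈ A := by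
  unfold NN
  rw [Finset.mem_biUnion]
  constructor
  · rintro ⟨A, hA, hv⟩
    rw [Finset.mem_filter] at hA
    exact ⟨A, hA.1, hA.2, hv⟩
  · rintro ⟨A, hA, hx, hv⟩
    exact ⟨A, Finset.mem_filter.2 ⟨hA, hx⟩, hv⟩

lemma card_NN (H : Finset (Finset V)) {n D : ℕ} (hH : ∀ A ∈ H, A.card = n)
    (hD : ∀ v, (H.filter (fun A => v ∈ A)).card ≤ D) (x : V) : (NN H x).card ≤ D * n := by
  unfold NN
  refine (Finset.card_biUnion_le_card_mul _ _ n ?_).trans (Nat.mul_le_mul_right _ (hD x))
  intro A hA
  exact (hH A (Finset.mem_filter.1 hA).1).le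

open Classical in
lemma card_C (H : Finset (Finset V)) {n D : ℕ} (hH : ∀ A ∈ H, A.card = n)
    (hD : ∀ v, (H.filter (fun A => v ∈ A)).card ≤ D) (x : V) :
    (Finset.univ.filter (fun i => inC H x i)).card ≤ D + (D * n + D * n * D) := by
  have hsub : Finset.univ.filter (fun i => inC H x i) ⊆
      (H.filter (fun A => x ∈ A)).image Sum.inl ∪
      ((NN H x).image (fun v => Sum.inr (Sum.inl v)) ∪
        ((NN H x).biUnion (fun v => H.filter (fun A => v ∈ A))).image
          (fun A => Sum.inr (Sum.inr A))) := by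
    intro i hi
    have hi' := (Finset.mem_filter.1 hi).2
    rw [Finset.mem_union, Finset.mem_union]
    rcases i with A | v | A
    · left
      exact Finset.mem_image_of_mem _ (Finset.mem_filter.2 hi')
    · right
      left
      exact Finset.mem_image_of_mem _ ((mem_NN H x v).2 hi')
    · right
      right
      obtain ⟨hA, v, hv, hv'⟩ := hi'
      exact Finset.mem_image_of_mem _ (Finset.mem_biUnion.2
        ⟨v, (mem_NN H x v).2 hv', Finset.mem_filter.2 ⟨hA, hv⟩⟩)
  refine (Finset.card_le_card hsub).trans ((Finset.card_union_le _ _).trans (add_le_add ?_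
    ((Finset.card_union_le _ _).trans (add_le_add ?_ ?_))))
  · exact Finset.card_image_le.trans (hD x)
  · exact Finset.card_image_le.trans (card_NN H hH hD x)
  · refine Finset.card_image_le.trans ?_
    refine (Finset.card_biUnion_le_card_mul _ _ D (fun v _ => hD v)).trans ?_
    exact Nat.mul_le_mul_right _ (card_NN H hH hD x)

open Classical in
lemma card_X (H : Finset (Finset V)) {n D : ℕ} (hn : 1 ≤ n) (hD1 : 1 ≤ D)
    (hH : ∀ A ∈ H, A.card = n) (hD : ∀ v, (H.filter (fun A => v ∈ A)).card ≤ D)
    (i : Finset V ⊕ (V ⊕ Finset V)) :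
    (Finset.univ.filter (fun x => inC H x i)).card ≤ n * (D * n) := by
  have h1 : n ≤ n * (D * n) := Nat.le_mul_of_pos_right _ (Nat.mul_pos hD1 hn)
  have h2 : D * n ≤ n * (D * n) := Nat.le_mul_of_pos_left _ hn
  rcases i with A | v | A
  · by_cases hA : A ∈ H
    · refine (Finset.card_le_card (t := A) ?_).trans ((hH A hA).le.trans h1)
      intro x hx
      exact (Finset.mem_filter.1 hx).2.2
    · rw [Finset.filter_false_of_mem]
      · simp
      · intro x _ h
        exact hA h.1
  · refine (Finset.card_le_card (t := NN H v) ?_).trans ((card_NN H hH hD v).trans h2)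
    intro x hx
    obtain ⟨A, hA, hx', hv⟩ := (Finset.mem_filter.1 hx).2
    exact (mem_NN H v x).2 ⟨A, hA, hv, hx'⟩
  · by_cases hA : A ∈ H
    · refine (Finset.card_le_card (t := A.biUnion (NN H)) ?_).trans ?_
      · intro x hx
        obtain ⟨_, v, hv, A', hA', hx', hv'⟩ := (Finset.mem_filter.1 hx).2
        exact Finset.mem_biUnion.2 ⟨v, hv, (mem_NN H v x).2 ⟨A', hA', hv', hx'⟩⟩
      · refine (Finset.card_biUnion_le_card_mul _ _ (D * n) ?_).trans ?_
        · intro v _
          exact card_NN H hH hD v
        · rw [hH A hA]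
    · rw [Finset.filter_false_of_mem]
      · simp
      · intro x _ h
        exact hA h.1

lemma card_nb (H : Finset (Finset V)) {n D : ℕ} (hn : 1 ≤ n) (hD1 : 1 ≤ D)
    (hH : ∀ A ∈ H, A.card = n) (hD : ∀ v, (H.filter (fun A => v ∈ A)).card ≤ D)
    (i : Finset V ⊕ (V ⊕ Finset V)) :
    (nb (GG H) i).card ≤ 3 * D ^ 3 * n ^ 3 := by
  classical
  have hsub : nb (GG H) i ⊆ (Finset.univ.filter (fun x => inC H x i)).biUnion
      (fun x => Finset.univ.filter (fun j => inC H x j)) := by
    intro j hj
    rw [mem_nb] at hj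
    obtain ⟨_, x, h1, h2⟩ := hj
    rw [Finset.mem_biUnion]
    exact ⟨x, Finset.mem_filter.2 ⟨Finset.mem_univ _, h1⟩,
      Finset.mem_filter.2 ⟨Finset.mem_univ _, h2⟩⟩
  refine (Finset.card_le_card hsub).trans ?_
  refine (Finset.card_biUnion_le_card_mul _ _ (D + (D * n + D * n * D))
    (fun x _ => card_C H hH hD x)).trans ?_
  refine (Nat.mul_le_mul_right _ (card_X H hn hD1 hH hD i)).trans ?_
  have h1 : D ≤ D * n * D := by
    calc D = 1 * 1 * D := by ring
      _ ≤ D * n * D := Nat.mul_le_mul_right _ (Nat.mul_le_mul hD1 hn)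
  have h2 : D * n ≤ D * n * D := Nat.le_mul_of_pos_right _ hD1
  calc n * (D * n) * (D + (D * n + D * n * D))
      ≤ n * (D * n) * (D * n * D + (D * n * D + D * n * D)) := by
        apply Nat.mul_le_mul_left
        omega
    _ = 3 * D ^ 3 * n ^ 3 := by ring

lemma rr_init (q : Par) (A : Finset V) : rr q ∅ ∅ A = q.f0 := by
  unfold rr
  simp

lemma RR_init (H : Finset (Finset V)) {q : Par} (hf : 0 ≤ q.f0) {D : ℕ}
    (hD : ∀ v, (H.filter (fun A => v ∈ A)).card ≤ D) (v : V) : RR H q ∅ ∅ v ≤ D * q.f0 := by
  unfold RR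
  simp_rw [rr_init]
  rw [Finset.sum_const, nsmul_eq_mul]
  apply mul_le_mul_of_nonneg_right _ hf
  exact_mod_cast hD v

/-- The initial position. -/
theorem init_R (H : Finset (Finset V)) {q : Par} {n D : ℕ} (hn : 1 ≤ n) (hD1 : 1 ≤ D)
    (hH : ∀ A ∈ H, A.card = n) (hD : ∀ v, (H.filter (fun A => v ∈ A)).card ≤ D)
    (hl : 0 ≤ q.l) (hf : 0 ≤ q.f0) (hb : 1 ≤ q.b) (hβ : 0 < q.β)
    (H5 : D * q.f0 ≤ Real.exp (-1))
    (H6 : q.k ≤ q.β * (q.Us - n * (D * q.f0) ^ (q.p + 1)))
    (H7 : Real.exp (-q.k) ≤ 1 / (4 * (3 * D ^ 3 * n ^ 3 : ℕ))) :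
    R (GG H) (wt H q ∅ ∅) := by
  have hθ : 0 < Real.exp (-1) := Real.exp_pos _
  have hk : Real.exp (-1) ^ q.k = Real.exp (-q.k) := by
    rw [← Real.exp_nat_mul]
    congr 1
    ring
  have hD1' : (1:ℝ) ≤ D := by exact_mod_cast hD1
  apply R_init (GG H) (n := 3 * D ^ 3 * n ^ 3)
  · have : 0 < 3 * D ^ 3 * n ^ 3 := by positivity
    exact this
  · intro i
    refine le_trans ?_ H7
    rcases i with A | v | A
    · simp only [wt]
      split_ifs
      · rw [rr_init, max_eq_right, hk]
        have := mul_le_mul_of_nonneg_right hD1' hf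
        linarith
      · exact Real.exp_nonneg _
    · simp only [wt]
      split_ifs
      · exact Real.exp_nonneg _
      · rw [max_eq_right, hk]
        rw [div_le_iff₀ (by linarith)]
        have h1 := RR_init H hf hD v
        have h2 := mul_le_mul_of_nonneg_left hb hθ.le
        linarith
    · simp only [wt]
      split_ifs with hA
      · apply Real.exp_le_exp.2
        have h1 : UU H q (q.p + 1) ∅ ∅ A ≤ n * (D * q.f0) ^ (q.p + 1) := by
          unfold UU
          have h2 : ∀ u ∈ A \ (∅ ∪ ∅), RR H q ∅ ∅ u ^ (q.p + 1) ≤ (D * q.f0) ^ (q.p + 1) := by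
            intro u _
            exact pow_le_pow_left₀ (RR_nonneg H hl hf _ _ _) (RR_init H hf hD u) _
          refine (Finset.sum_le_sum h2).trans ?_
          rw [Finset.sum_const, nsmul_eq_mul]
          apply mul_le_mul_of_nonneg_right
          · have h3 : (A \ (∅ ∪ ∅)).card ≤ n := by
              refine (Finset.card_le_card Finset.sdiff_subset).trans ?_
              rw [hH A hA.1]
            exact_mod_cast h3
          · positivity
        have h2 := mul_le_mul_of_nonneg_left h1 hβ.le
        rw [mul_sub] at H6 ⊢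
        linarith
      · exact Real.exp_nonneg _
  · intro i
    exact card_nb H hn hD1 hH hD i

/-- Breaker's strategy under explicit conditions on the parameters. -/
theorem breaker (H : Finset (Finset V)) {q : Par} {n D : ℕ} (hn : 1 ≤ n) (hD1 : 1 ≤ D)
    (hH : ∀ A ∈ H, A.card = n) (hD : ∀ v, (H.filter (fun A => v ∈ A)).card ≤ D)
    (hl : 0 < q.l) (hf0 : (1 + q.l) ^ (n - 1) * q.f0 = 1) (hf : 0 ≤ q.f0)
    (hb : 1 ≤ q.b) (hβ : 0 < q.β)
    {τ Ts : ℝ} (hτ : 0 < τ) (hTs : 0 < Ts)
    (H1 : q.k * q.l * ((1 + q.l) * q.b) ≤ Real.exp (-1))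
    (H2 : q.k * q.l * Ts ≤ Real.exp (-1) * (q.b * Real.exp (-1) / (1 + q.l)) ^ q.p)
    (H3 : q.β * ((q.p + 1) * (1 + q.l) ^ q.p * q.l) * (q.b * Ts) ≤ 1)
    (H4 : 2 * n * τ ^ q.p ≤ Ts) (H4' : q.Us = τ * Ts / 2)
    (H5 : D * q.f0 ≤ Real.exp (-1))
    (H6 : q.k ≤ q.β * (q.Us - n * (D * q.f0) ^ (q.p + 1)))
    (H7 : Real.exp (-q.k) ≤ 1 / (4 * (3 * D ^ 3 * n ^ 3 : ℕ))) :
    ∃ W : Set (Finset V × Finset V), ((∅ : Finset V), (∅ : Finset V)) ∈ W ∧
      ∀ M B : Finset V, (M, B) ∈ W → ∀ x : V, x ∉ M → x ∉ B →
        (∀ e ∈ H, ¬ e ⊆ insert x M) ∧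
        (insert x M ∪ B = Finset.univ ∨
          ∃ y : V, y ∉ insert x M ∧ y ∉ B ∧ (insert x M, insert y B) ∈ W) := by
  refine ⟨{s | Disjoint s.1 s.2 ∧ R (GG H) (wt H q s.1 s.2)}, ⟨Finset.disjoint_empty_left _,
    init_R H hn hD1 hH hD hl.le hf hb hβ H5 H6 H7⟩, ?_⟩
  rintro M B ⟨hMB, hR⟩ x hxM hxB
  simp only at hMB hR
  have h := round H hH hl hf0 (by linarith) hβ hτ hTs H1 H2 H3 H4 H4' hMB hR hxM hxB
  refine ⟨h.1, ?_⟩
  rcases h.2 with h2 | ⟨y, hy1, hy2, hy3⟩
  · exact Or.inl h2
  · right
    refine ⟨y, hy1, hy2, ?_, hy3⟩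
    simp only
    rw [Finset.disjoint_insert_right, Finset.disjoint_insert_left]
    exact ⟨hy1, hxB, hMB⟩

/-- Breaker's strategy, with the parameters chosen. -/
theorem breaker_param (H : Finset (Finset V)) {n D k p : ℕ} {L : ℝ} (hn : 1 ≤ n) (hD1 : 1 ≤ D)
    (hH : ∀ A ∈ H, A.card = n) (hD : ∀ v, (H.filter (fun A => v ∈ A)).card ≤ D)
    (hk1 : 1 ≤ k) (hp1 : 1 ≤ p) (hp : Real.log n ≤ p) (hDL : (D:ℝ) ≤ Real.exp L)
    (hk : Real.exp (-k) ≤ 1 / (4 * (3 * D ^ 3 * n ^ 3 : ℕ)))
    (hbig : 108 * k * (p + 1) * (L + 1) ≤ (n:ℝ) - 1) :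
    ∃ W : Set (Finset V × Finset V), ((∅ : Finset V), (∅ : Finset V)) ∈ W ∧
      ∀ M B : Finset V, (M, B) ∈ W → ∀ x : V, x ∉ M → x ∉ B →
        (∀ e ∈ H, ¬ e ⊆ insert x M) ∧
        (insert x M ∪ B = Finset.univ ∨
          ∃ y : V, y ∉ insert x M ∧ y ∉ B ∧ (insert x M, insert y B) ∈ W) := by
  have hk1' : (1:ℝ) ≤ k := by exact_mod_cast hk1
  have hp1' : (1:ℝ) ≤ p := by exact_mod_cast hp1
  have hn1' : (1:ℝ) ≤ n := by exact_mod_cast hn
  set θ : ℝ := Real.exp (-1) with hθ'
  have hθ : 0 < θ := Real.exp_pos _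
  have he1 : Real.exp 1 < 2.7182818286 := Real.exp_one_lt_d9
  have he2 : 2.7182818283 < Real.exp 1 := Real.exp_one_gt_d9
  have hθe : θ * Real.exp 1 = 1 := by
    rw [hθ', ← Real.exp_add]
    simp
  have hθ1 : 0.36 < θ := by nlinarith
  have hθ2 : θ < 0.37 := by nlinarith
  set τ : ℝ := 2 * (p + 1) with hτ
  set b : ℝ := 9 * τ with hb
  set l : ℝ := 1 / (3 * k * b) with hl
  have hτ4 : 4 ≤ τ := by linarith
  have hb36 : 36 ≤ b := by linarith
  have hkb : 0 < 3 * k * b := by positivity
  have hl0 : 0 < l := by positivity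
  have hkl : k * l * b = 1 / 3 := by
    rw [hl]
    field_simp
  have hl1 : l ≤ 1 / 54 := by
    rw [hl]
    apply one_div_le_one_div_of_le (by norm_num)
    nlinarith
  have hlp : l * p ≤ 1 / 54 := by
    have h1 : l * b ≤ 1 / 3 := by
      rw [← hkl]
      nlinarith [mul_pos hl0 (by linarith : 0 < b)]
    have h2 : l * (18 * p) ≤ l * b := by
      apply mul_le_mul_of_nonneg_left _ hl0.le
      linarith
    linarith
  have h1l : 0 < 1 + l := by linarith
  have hpow : (1 + l) ^ p ≤ 2 := by
    have h1 : (1 + l) ^ p ≤ Real.exp (p * l) := by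
      rw [Real.exp_nat_mul]
      apply pow_le_pow_left₀ h1l.le
      have := Real.add_one_le_exp l
      linarith
    have h2 : Real.exp (p * l) ≤ Real.exp (1 / 54) := by
      apply Real.exp_le_exp.2
      linarith
    have h3 : Real.exp (1 / 54 : ℝ) ≤ 2 := by
      have h4 : Real.exp (1 / 54 : ℝ) ^ 54 = Real.exp 1 := by
        rw [← Real.exp_nat_mul]
        norm_num
      by_contra hcon
      push Not at hcon
      have h5 : (2:ℝ) ^ 54 ≤ Real.exp (1 / 54 : ℝ) ^ 54 := pow_le_pow_left₀ (by norm_num) hcon.le _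
      rw [h4] at h5
      norm_num at h5
      linarith
    linarith
  set f0 : ℝ := ((1 + l) ^ (n - 1))⁻¹ with hf0
  have hpn : 0 < (1 + l) ^ (n - 1) := by positivity
  have hf0' : 0 < f0 := by positivity
  set X : ℝ := b * θ / (1 + l) with hX
  have hXτ : Real.exp 1 * τ ≤ X := by
    rw [hX, le_div_iff₀ h1l, hb]
    have h1 : Real.exp 1 * (1 + l) ≤ 9 * θ := by
      nlinarith
    nlinarith
  have hX0 : 0 < X := by positivity
  set Ts : ℝ := θ * X ^ p * (3 * b) with hTs
  have hTs0 : 0 < Ts := by positivity
  have hnp : (n:ℝ) ≤ Real.exp 1 ^ p := by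
    rw [← Real.exp_nat_mul, mul_one]
    calc (n:ℝ) = Real.exp (Real.log n) := (Real.exp_log (by linarith)).symm
      _ ≤ Real.exp p := Real.exp_le_exp.2 hp
  have H4 : 2 * n * τ ^ p ≤ Ts := by
    have h1 : n * τ ^ p ≤ X ^ p := by
      calc n * τ ^ p ≤ Real.exp 1 ^ p * τ ^ p :=
            mul_le_mul_of_nonneg_right hnp (by positivity)
        _ = (Real.exp 1 * τ) ^ p := (mul_pow _ _ _).symm
        _ ≤ X ^ p := pow_le_pow_left₀ (by positivity) hXτ _
    have h2 : 2 ≤ θ * (3 * b) := by nlinarith
    have h3 : 0 < X ^ p := by positivity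
    calc 2 * n * τ ^ p = 2 * (n * τ ^ p) := by ring
      _ ≤ 2 * X ^ p := by linarith
      _ ≤ θ * (3 * b) * X ^ p := mul_le_mul_of_nonneg_right h2 h3.le
      _ = Ts := by
        rw [hTs]
        ring
  set cc : ℝ := (p + 1) * (1 + l) ^ p * l with hcc
  have hcc0 : 0 < cc := by positivity
  set β : ℝ := 1 / (cc * (b * Ts)) with hβ
  have hbT : 0 < b * Ts := by positivity
  have hβ0 : 0 < β := by positivity
  set q : Par := { l := l, f0 := f0, b := b, β := β, Us := τ * Ts / 2, k := k, p := p } with hq
  have H5 : D * f0 ≤ θ := by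
    have h1 : Real.exp (l / 2) ≤ 1 + l := by
      have h2 : Real.exp (-(l / 2)) ≥ 1 - l / 2 := by
        have := Real.add_one_le_exp (-(l / 2))
        linarith
      have h3 : Real.exp (l / 2) * Real.exp (-(l / 2)) = 1 := by
        rw [← Real.exp_add]
        simp
      have h4 := Real.exp_pos (l / 2)
      have h5 : Real.exp (l / 2) * (1 - l / 2) ≤ 1 :=
        (mul_le_mul_of_nonneg_left h2 h4.le).trans h3.le
      have h6 : 1 ≤ (1 + l) * (1 - l / 2) := by nlinarith
      have h7 : 0 < 1 - l / 2 := by linarith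
      exact le_of_mul_le_mul_right (h5.trans h6) h7
    have h2 : Real.exp (L + 1) ≤ (1 + l) ^ (n - 1) := by
      calc Real.exp (L + 1) ≤ Real.exp ((n - 1 : ℕ) * (l / 2)) := by
            apply Real.exp_le_exp.2
            have e1 : ((n - 1 : ℕ) : ℝ) = (n:ℝ) - 1 := by
              rw [Nat.cast_sub hn]
              simp
            rw [e1]
            have e2 : 108 * k * (p + 1) * (l / 2) = 1 := by
              have : 3 * k * b * l = 1 := by
                rw [hl]
                field_simp
              calc 108 * k * (p + 1) * (l / 2) = 3 * k * b * l := by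
                    rw [hb, hτ]
                    ring
                _ = 1 := this
            have e3 := mul_le_mul_of_nonneg_right hbig (by positivity : 0 ≤ l / 2)
            calc L + 1 = (L + 1) * (108 * k * (p + 1) * (l / 2)) := by rw [e2, mul_one]
              _ = 108 * k * (p + 1) * (L + 1) * (l / 2) := by ring
              _ ≤ _ := e3
        _ = Real.exp (l / 2) ^ (n - 1) := Real.exp_nat_mul _ _
        _ ≤ _ := pow_le_pow_left₀ (Real.exp_nonneg _) h1 _
    rw [hf0, ← div_eq_mul_inv, div_le_iff₀ hpn]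
    calc (D:ℝ) ≤ Real.exp L := hDL
      _ = θ * Real.exp (L + 1) := by
        rw [hθ', ← Real.exp_add]
        congr 1
        ring
      _ ≤ _ := mul_le_mul_of_nonneg_left h2 hθ.le
  have hfn : (1 + l) ^ (n - 1) * f0 = 1 := mul_inv_cancel₀ hpn.ne'
  apply breaker H (q := q) (n := n) (D := D) hn hD1 hH hD hl0 hfn hf0'.le
    (by
      change 1 ≤ b
      linarith) hβ0 (τ := τ) (Ts := Ts) (by linarith) hTs0
  · change k * l * ((1 + l) * b) ≤ θ
    calc k * l * ((1 + l) * b) = (1 + l) * (k * l * b) := by ring
      _ = (1 + l) * (1 / 3) := by rw [hkl]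
      _ ≤ θ := by linarith
  · change k * l * Ts ≤ θ * X ^ p
    apply le_of_eq
    rw [hTs]
    calc k * l * (θ * X ^ p * (3 * b)) = θ * X ^ p * (3 * (k * l * b)) := by ring
      _ = θ * X ^ p := by
        rw [hkl]
        ring
  · change β * cc * (b * Ts) ≤ 1
    apply le_of_eq
    rw [hβ]
    field_simp
  · exact H4
  · rfl
  · exact H5
  · change (k:ℝ) ≤ β * (τ * Ts / 2 - n * (D * f0) ^ (p + 1))
    have h1 : (D * f0) ^ (p + 1) ≤ (τ / 4) ^ (p + 1) := by
      apply pow_le_pow_left₀ (by positivity)
      linarith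
    have h2 : (τ / 4) ^ (p + 1) ≤ τ ^ (p + 1) / 4 := by
      rw [div_pow]
      apply div_le_div_of_nonneg_left (by positivity) (by norm_num)
      calc (4:ℝ) = 4 ^ 1 := by norm_num
        _ ≤ 4 ^ (p + 1) := pow_le_pow_right₀ (by norm_num) (by omega)
    have h3 : n * (D * f0) ^ (p + 1) ≤ τ * Ts / 8 := by
      calc n * (D * f0) ^ (p + 1) ≤ n * (τ ^ (p + 1) / 4) :=
            mul_le_mul_of_nonneg_left (h1.trans h2) (by linarith)
        _ = τ * (2 * n * τ ^ p) / 8 := by
          rw [pow_succ]
          ring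
        _ ≤ τ * Ts / 8 := by
          have := mul_le_mul_of_nonneg_left H4 (by linarith : 0 ≤ τ)
          linarith
    have h4 : 3 / 8 * (τ * Ts) ≤ τ * Ts / 2 - n * (D * f0) ^ (p + 1) := by linarith
    have h5 : (k:ℝ) ≤ β * (3 / 8 * (τ * Ts)) := by
      have e1 : β * (3 / 8 * (τ * Ts)) = 3 / 8 * τ / (cc * b) := by
        rw [hβ]
        field_simp
      rw [e1, le_div_iff₀ (by positivity), hcc]
      calc k * ((p + 1) * (1 + l) ^ p * l * b) = (k * l * b) * (p + 1) * (1 + l) ^ p := by ring
        _ = 1 / 3 * (p + 1) * (1 + l) ^ p := by rw [hkl]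
        _ ≤ 1 / 3 * (p + 1) * 2 := by
          apply mul_le_mul_of_nonneg_left hpow
          positivity
        _ ≤ 3 / 8 * τ := by
          rw [hτ]
          linarith
    exact h5.trans (mul_le_mul_of_nonneg_left h4 hβ0.le)
  · exact hk

end Game

/-- Breaker wins on every `n`-uniform hypergraph of maximum degree at most
`exp ((1/60) √(n / log n))`, for all large `n`. -/
theorem main : ∃ n₀ : ℕ, ∀ n : ℕ, n₀ ≤ n → ∀ (V : Type) [Fintype V] [DecidableEq V]
    (H : Finset (Finset V)), (∀ e ∈ H, e.card = n) →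
    (∀ v : V, ((H.filter (fun e => v ∈ e)).card : ℝ)
      ≤ Real.exp (1 / 60 * Real.sqrt (n / Real.log n))) →
    ∃ W : Set (Finset V × Finset V), ((∅ : Finset V), (∅ : Finset V)) ∈ W ∧
      ∀ M B : Finset V, (M, B) ∈ W → ∀ x : V, x ∉ M → x ∉ B →
        (∀ e ∈ H, ¬ e ⊆ insert x M) ∧
        (insert x M ∪ B = Finset.univ ∨
          ∃ y : V, y ∉ insert x M ∧ y ∉ B ∧ (insert x M, insert y B) ∈ W) := by
  have hlog : ∀ᶠ x : ℝ in Filter.atTop, Real.log x ^ 3 ≤ 1 / 90000 * x := by
    have h := (Real.isLittleO_pow_log_id_atTop (n := 3)).bound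
      (show (0:ℝ) < 1 / 90000 by norm_num)
    filter_upwards [h, Filter.eventually_ge_atTop (1:ℝ)] with x hx hx1
    simp only [id, Real.norm_eq_abs] at hx
    rw [abs_of_pos (by linarith : (0:ℝ) < x)] at hx
    exact (le_abs_self _).trans hx
  have hlog' : ∀ᶠ n : ℕ in Filter.atTop, Real.log n ^ 3 ≤ 1 / 90000 * n ∧ (8:ℝ) ≤ n :=
    tendsto_natCast_atTop_atTop.eventually (hlog.and (Filter.eventually_ge_atTop (8:ℝ)))
  obtain ⟨n₀, hn₀⟩ := Filter.eventually_atTop.1 hlog'
  refine ⟨n₀, ?_⟩
  intro n hn V _ _ H hH hdeg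
  obtain ⟨hy3, hn8⟩ := hn₀ n hn
  set y : ℝ := Real.log n with hy
  have hy2 : 2 ≤ y := by
    rw [hy, Real.le_log_iff_exp_le (by linarith)]
    have h1 : Real.exp 2 = Real.exp 1 * Real.exp 1 := by
      rw [← Real.exp_add]
      norm_num
    have := Real.exp_one_lt_d9
    have h2 := Real.exp_pos 1
    rw [h1]
    nlinarith
  set S : ℝ := Real.sqrt (n / y) with hS
  have hS0 : 0 ≤ S := Real.sqrt_nonneg _
  have hS2 : S * S = n / y := Real.mul_self_sqrt (by positivity)
  have hS2y : S * S * y = n := by
    rw [hS2]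
    field_simp
  set L : ℝ := 1 / 60 * S with hL
  have hLS : 5 * y ≤ L := by
    rw [hL]
    have h1 : (300 * y) * (300 * y) ≤ S * S := by
      rw [hS2, le_div_iff₀ (by linarith)]
      nlinarith
    have h2 : 300 * y ≤ S := by
      by_contra hcon
      push Not at hcon
      nlinarith
    linarith
  set D : ℕ := ⌊Real.exp L⌋₊ with hD
  have hD1 : 1 ≤ D := by
    rw [hD, Nat.one_le_floor_iff]
    exact Real.one_le_exp (by linarith)
  have hDL : (D:ℝ) ≤ Real.exp L := Nat.floor_le (Real.exp_nonneg _)
  have hdeg' : ∀ v, (H.filter (fun A => v ∈ A)).card ≤ D := fun v => Nat.le_floor (hdeg v)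
  set k : ℕ := ⌈3 * L + 3 * y + 3⌉₊ with hk
  set p : ℕ := ⌈y⌉₊ with hp
  have hk1 : 3 * L + 3 * y + 3 ≤ k := Nat.le_ceil _
  have hk2 : (k:ℝ) ≤ 3 * L + 3 * y + 4 := by
    have := Nat.ceil_lt_add_one (show 0 ≤ 3 * L + 3 * y + 3 by linarith)
    linarith
  have hp1 : y ≤ p := Nat.le_ceil _
  have hp2 : (p:ℝ) ≤ y + 1 := by
    have := Nat.ceil_lt_add_one (show 0 ≤ y by linarith)
    linarith
  have hk3 : (1:ℝ) ≤ k := by linarith
  have hp3 : (1:ℝ) ≤ p := by linarith
  have hn1 : 1 ≤ n := by
    have : (1:ℝ) ≤ n := by linarith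
    exact_mod_cast this
  apply breaker_param H (k := k) (p := p) (L := L) hn1 hD1 hH hdeg' (by exact_mod_cast hk3)
    (by exact_mod_cast hp3) hp1 hDL
  · rw [Real.exp_neg, ← one_div]
    apply one_div_le_one_div_of_le
    · have : 0 < 3 * D ^ 3 * n ^ 3 := by positivity
      have : (0:ℝ) < (3 * D ^ 3 * n ^ 3 : ℕ) := by exact_mod_cast this
      linarith
    · push_cast
      have h1 : (n:ℝ) = Real.exp y := (Real.exp_log (by linarith)).symm
      have h2 : (D:ℝ) ^ 3 ≤ Real.exp L ^ 3 := pow_le_pow_left₀ (by positivity) hDL _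
      have h3 : (12:ℝ) ≤ Real.exp 3 := by
        have h4 : Real.exp 3 = Real.exp 1 * Real.exp 1 * Real.exp 1 := by
          rw [← Real.exp_add, ← Real.exp_add]
          norm_num
        have h5 := Real.exp_one_gt_d9
        rw [h4]
        nlinarith [mul_pos (Real.exp_pos 1) (Real.exp_pos 1)]
      calc 4 * (3 * (D:ℝ) ^ 3 * (n:ℝ) ^ 3) = 12 * ((D:ℝ) ^ 3 * Real.exp y ^ 3) := by
            rw [← h1]
            ring
        _ ≤ Real.exp 3 * (Real.exp L ^ 3 * Real.exp y ^ 3) := by
            apply mul_le_mul h3 _ (by positivity) (by positivity)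
            exact mul_le_mul_of_nonneg_right h2 (by positivity)
        _ = Real.exp (3 * L + 3 * y + 3) := by
            rw [← Real.exp_nat_mul, ← Real.exp_nat_mul, ← Real.exp_add, ← Real.exp_add]
            congr 1
            push_cast
            ring
        _ ≤ Real.exp k := Real.exp_le_exp.2 hk1
  · have hk4 : (k:ℝ) ≤ 4 * L := by linarith
    have hp4 : (p:ℝ) + 1 ≤ 2 * y := by linarith
    have hL2 : L + 1 ≤ 2 * L := by linarith
    have hLpos : 0 < L := by linarith
    calc 108 * k * (p + 1) * (L + 1) ≤ 108 * (4 * L) * (2 * y) * (2 * L) := by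
          apply mul_le_mul _ hL2 (by linarith) (by positivity)
          apply mul_le_mul _ hp4 (by linarith) (by positivity)
          linarith
      _ = 1728 / 3600 * (S * S * y) := by
          rw [hL]
          ring
      _ = 1728 / 3600 * n := by rw [hS2y]
      _ ≤ (n:ℝ) - 1 := by linarith

end Pool.Agent.Helper594.LocalBreaker
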